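import Pool.Agent.MP_151d89_pr.H34.Spec
import Pool.Agent.MP_151d89_pr.H21.CorR
import Pool.Agent.MP_151d89_pr.H45.Haz

/-!
The corner bound for towers with a fixed first site or a fixed last site.
-/

set_option autoImplicit false
open MeasureTheory Finset

namespace Pool.Agent.MP_151d89_pr.H34
open Pool.Agent.MP_151d89_pr.H82 Pool.Agent.MP_151d89_pr.H33 Pool.Agent.MP_151d89_pr.H67
open Pool.Agent.MP_151d89_pr.H30 Pool.Agent.MP_151d89_pr.H27 Pool.Agent.MP_151d89_pr.H30W
open Classical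

namespace CorA

theorem rec_le {p q : ℕ → ℝ} (h : ∀ n, q n = p n + q (n + 1)) (h0 : ∀ n, 0 ≤ q n) (K : ℕ) :
    ∑ j ∈ range K, p j ≤ q 0 := by
  have e : ∑ j ∈ range K, p j + q K = q 0 := by
    induction K with
    | zero => simp
    | succ K ih => rw [sum_range_succ, add_assoc, ← h, ih]
  linarith [h0 K]

/-- the three cases of the corner bound -/
theorem cases3 {A S q : ℝ} {p : ℕ → ℝ} {i l : ℕ} (hl : l ≤ i) (p0 : p 0 = 1) (pn : ∀ k, 0 ≤ p k)
    (S0 : 0 ≤ S) (Sq : S ≤ q) (h0 : i = 0 → q * A ≤ 1)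
    (h : ∀ l : ℕ, l + 1 ≤ i →
      q * (A - l) ≤ (1 / 2) ^ ((l + 1) / 16) * ∑ a ∈ range (l + 1), p (i - 1 - a + 1)) :
    (A - l) * S ≤ rr l * ∑ a ∈ range (l + 1), p (i - a) := by
  have k : ∀ x c : ℝ, 0 ≤ c → q * x ≤ c → x * S ≤ c := fun x c c0 e => by
    rcases le_total x 0 with a | a
    · exact (mul_nonpos_of_nonpos_of_nonneg a S0).trans c0
    · exact (mul_le_mul_of_nonneg_left Sq a).trans (by linarith)
  have r0 : 0 ≤ rr l := by unfold rr; positivity
  rcases l with _ | l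
  · refine k _ _ (mul_nonneg r0 (sum_nonneg fun _ _ => pn _)) ?_
    rcases i with _ | i
    · simpa [rr, p0] using h0 rfl
    · simpa [rr] using h 0 (by omega)
  · have a := k _ _ (mul_nonneg r0 (sum_nonneg fun _ _ => pn _)) (h l hl)
    have b : ∑ a ∈ range (l + 1), p (i - 1 - a + 1) ≤ ∑ a ∈ range (l + 1 + 1), p (i - a) := by
      rw [sum_range_succ _ (l + 1), sum_congr rfl fun a ha => congrArg p
        (show i - 1 - a + 1 = i - a by have := mem_range.1 ha; omega)]
      linarith [pn (i - (l + 1))]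
    have c := mul_le_mul_of_nonneg_left b r0
    push_cast
    nlinarith

theorem pp_nn (μ : Measure Conf) (b : Bool) (z : ℤ × ℤ) (k : ℕ) : 0 ≤ pp μ b z k := by
  cases k
  · exact zero_le_one
  · exact measureReal_nonneg

end CorA

open CorA

theorem corD_row : CorDStmt := by
  intro μ hμ hT b z i l K hl
  refine cases3 (q := μ.real {f | Rdg b z i f}) hl rfl (pp_nn μ b z)
    (sum_nonneg fun _ _ => pp_nn _ _ _ _)
    (rec_le (q := fun j => μ.real {f | Rdg b z (i + j) f}) (fun j => H45.q_succ hμ b z (i + j))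
      (fun _ => measureReal_nonneg) K) ?_ fun l h => H21.corR_al hμ hT b z h
  rintro rfl
  rw [Nat.cast_zero, pt_zero]
  refine le_trans (mul_le_mul_of_nonneg_right (H45.real_mono hμ fun f hf h => ?_)
    (tsum_nonneg fun _ => measureReal_nonneg)) (H45.ah0 hμ hT (!b) z)
  exact (H45.not_hi hf _ _).2 h.2.2.2

theorem corU_row : CorUStmt := by
  intro μ hμ hT b x j l K hl
  have e : ∀ i : ℕ, pt b (pt b x j) (-((j + i : ℕ) : ℤ)) = pt b x (-(i : ℤ)) := fun i => by
    rw [NullP.pt_pt]; congr 1; push_cast; ring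
  have h := cases3 (q := μ.real {f | Vly b (pt b x j) j f}) (A := H45.al' μ (!b) x)
    (S := ∑ i ∈ range K, pp μ b (pt b x (-(i : ℤ))) (i + j + 1))
    (p := fun k => pp μ b (pt b x (j - k + 1)) k) hl rfl (fun _ => pp_nn _ _ _ _)
    (sum_nonneg fun _ _ => pp_nn _ _ _ _)
    (rec_le (q := fun i => μ.real {f | Vly b (pt b x j) (j + i) f}) (fun i => by
      rw [H45.q'_succ hμ, ← H45.p_rev hμ, e, add_comm i j]
      rfl) (fun _ => measureReal_nonneg) K) ?_ fun l h => ?_
  · refine h.trans (le_of_eq ?_)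
    congr 1
    refine sum_congr rfl fun a ha => ?_
    have := mem_range.1 ha
    rw [Nat.cast_sub (by omega), sub_sub_cancel]
  · rintro rfl
    rw [Nat.cast_zero, pt_zero]
    refine le_trans (mul_le_mul_of_nonneg_right (H45.real_mono hμ fun f hf h => ?_)
      (tsum_nonneg fun _ => measureReal_nonneg)) (H45.ah0' hμ hT (!b) x)
    exact (H45.not_lo hf _ _).2 h.2.2.1
  · have a := H21.corV_al hμ hT b (pt b x j) h
    rw [NullP.pt_pt, add_neg_cancel, pt_zero] at a
    refine a.trans (le_of_eq ?_)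
    congr 1
    refine sum_congr rfl fun a _ => ?_
    rw [← H45.p_rev hμ, NullP.pt_pt]
    rw [show (j : ℤ) - ((j - 1 - a + 1 : ℕ) : ℤ) + 1 = j + -((j - 1 - a : ℕ) : ℤ) by push_cast; ring]
    rfl

end Pool.Agent.MP_151d89_pr.H34
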