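import Pool.Agent.MP_151d89_pr.H34.Spec

/-!
Two ways of summing over towers and sites.
-/

set_option autoImplicit false
open MeasureTheory Finset

namespace Pool.Agent.MP_151d89_pr.H34
open Pool.Agent.MP_151d89_pr.H82 Pool.Agent.MP_151d89_pr.H33 Pool.Agent.MP_151d89_pr.H67
open Pool.Agent.MP_151d89_pr.H30 Pool.Agent.MP_151d89_pr.H27 Pool.Agent.MP_151d89_pr.H30W
open Classical

namespace CovA

/-- comparison of sums along a map which is injective on the nonzero terms -/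
theorem sum_inj {α β : Type} (s : Finset α) (t : Finset β) (i : α → β) {g : α → ℝ} {h : β → ℝ}
    (hi : ∀ a ∈ s, g a ≠ 0 → i a ∈ t) (inj : ∀ a ∈ s, ∀ a' ∈ s, i a = i a' → a = a')
    (le : ∀ a ∈ s, g a ≤ h (i a)) (h0 : ∀ b ∈ t, 0 ≤ h b) :
    ∑ a ∈ s, g a ≤ ∑ b ∈ t, h b := by
  rw [← sum_filter_ne_zero]
  calc ∑ a ∈ s with g a ≠ 0, g a ≤ ∑ a ∈ s with g a ≠ 0, h (i a) :=
        sum_le_sum fun a ha => le a (mem_filter.1 ha).1
    _ = ∑ b ∈ (s.filter fun a => g a ≠ 0).image i, h b := by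
        rw [sum_image]
        intro a ha a' ha' e
        exact inj a (mem_filter.1 ha).1 a' (mem_filter.1 ha').1 e
    _ ≤ ∑ b ∈ t, h b := by
        refine sum_le_sum_of_subset_of_nonneg (fun b hb => ?_) fun b hb _ => h0 b hb
        obtain ⟨a, ha, rfl⟩ := mem_image.1 hb
        exact hi a (mem_filter.1 ha).1 (mem_filter.1 ha).2

theorem pt_back (b : Bool) (z : ℤ × ℤ) (i : ℤ) : pt b (pt b z i) (-i) = z := by
  simp [pt]

end CovA

open CovA

theorem cov_row : CovStmt := by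
  intro b p e S hp he hS J
  refine ⟨J.sup Prod.snd, ?_⟩
  set K := J.sup Prod.snd with hK
  have e1 : ∑ m ∈ J, p m.1 m.2 * WW b e m.1 m.2 =
      ∑ a ∈ J.sigma (fun m => range m.2), p a.1.1 a.1.2 * e (pt b a.1.1 a.2) := by
    rw [sum_sigma]
    exact sum_congr rfl fun m _ => by rw [WW, mul_sum]
  have e2 : ∑ z ∈ S, e z * cov b p z K K = ∑ a ∈ S ×ˢ range K ×ˢ range K,
      e a.1 * p (pt b a.1 (-(a.2.1 : ℤ))) (a.2.1 + a.2.2 + 1) := by
    rw [sum_product]
    refine sum_congr rfl fun z _ => ?_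
    rw [sum_product, cov, mul_sum]
    exact sum_congr rfl fun i _ => by rw [mul_sum]
  rw [e1, e2]
  refine sum_inj _ _ (fun a => (pt b a.1.1 a.2, a.2, a.1.2 - a.2 - 1)) ?_ ?_ ?_ ?_
  · rintro ⟨⟨z, k⟩, i⟩ ha h0
    obtain ⟨h1, h2⟩ := mem_sigma.1 ha
    have h3 : i < k := mem_range.1 h2
    have h4 : k ≤ K := le_sup (f := Prod.snd) h1
    refine mem_product.2 ⟨?_, mem_product.2 ⟨mem_range.2 ?_, mem_range.2 ?_⟩⟩
    · by_contra hn
      exact h0 (by rw [hS _ hn, mul_zero])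
    · show i < K
      omega
    · show k - i - 1 < K
      omega
  · rintro ⟨⟨z, k⟩, i⟩ ha ⟨⟨z', k'⟩, i'⟩ ha' h
    have h3 : i < k := mem_range.1 (mem_sigma.1 ha).2
    have h3' : i' < k' := mem_range.1 (mem_sigma.1 ha').2
    simp only [Prod.mk.injEq] at h
    obtain ⟨a1, a2, a3⟩ := h
    subst a2
    have a4 : k = k' := by omega
    have a5 : z = z' := by rw [← pt_back b z i, a1, pt_back]
    rw [a4, a5]
  · rintro ⟨⟨z, k⟩, i⟩ ha
    have h3 : i < k := mem_range.1 (mem_sigma.1 ha).2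
    show p z k * e (pt b z i) ≤ e (pt b z i) * p (pt b (pt b z i) (-(i : ℤ))) (i + (k - i - 1) + 1)
    rw [pt_back, show i + (k - i - 1) + 1 = k by omega, mul_comm]
  · intro a _
    exact mul_nonneg (he _) (hp _ _)

end Pool.Agent.MP_151d89_pr.H34
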