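import Pool.Agent.MP_151d89_pr.H34.Spec

/-!
The two cut-offs.
-/

set_option autoImplicit false
open Finset

namespace Pool.Agent.MP_151d89_pr.H34
open Pool.Agent.MP_151d89_pr.H82 Pool.Agent.MP_151d89_pr.H33 Pool.Agent.MP_151d89_pr.H67
open Pool.Agent.MP_151d89_pr.H30
open Classical

namespace CutA

theorem tel (T : ℤ → ℝ) {a b : ℤ} (h : a ≤ b) :
    ∑ d ∈ Ico a b, (T (d + 1) - T d) = T b - T a := by
  induction b, h using Int.leInduction with
  | base => simp
  | succ b hb ih =>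
    rw [← insert_Ico_right_eq_Ico_add_one hb, sum_insert (by simp), ih]
    ring

theorem box_tel (G : ℤ × ℤ → ℝ) {M : ℝ} (hG : ∀ z, |G z| ≤ M) (R : ℕ) (b : Bool) :
    ∑ z ∈ Ico (-(R : ℤ)) (R + 1) ×ˢ Ico (-(R : ℤ)) (R + 1), (G (z + dir b) - G z) ≤
      2 * M * (2 * R + 1) := by
  have h : -(R : ℤ) ≤ R + 1 := by omega
  have c : ((Ico (-(R : ℤ)) (R + 1)).card : ℝ) = 2 * R + 1 := by
    rw [Int.card_Ico, (by omega : ((R : ℤ) + 1 - -(R : ℤ)).toNat = 2 * R + 1)]
    push_cast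
    ring
  have k : ∀ p q, G p - G q ≤ 2 * M := fun p q => by
    linarith [(abs_le.1 (hG p)).2, (abs_le.1 (hG q)).1]
  cases b
  · rw [sum_product, ← c, mul_comm, ← nsmul_eq_mul]
    refine sum_le_card_nsmul _ _ _ fun x _ => ?_
    simp only [dir, Prod.mk_add_mk, add_zero]
    rw [tel (fun y => G (x, y)) h]
    exact k _ _
  · rw [sum_product_right, ← c, mul_comm, ← nsmul_eq_mul]
    refine sum_le_card_nsmul _ _ _ fun y _ => ?_
    simp only [dir, Prod.mk_add_mk, add_zero]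
    rw [tel (fun x => G (x, y)) h]
    exact k _ _

/-- the profile -/
noncomputable def HH (a t x y : ℝ) : ℝ := max 0 (min 1 (4 / a * (t - max |x| |y|)))

/-- the clamp -/
noncomputable def cl (M x : ℝ) : ℝ := max (-M) (min M x)

theorem HH_lip {a : ℝ} (ha : 0 < a) (t : ℝ) {x y x' y' d : ℝ} (h1 : |x' - x| ≤ d)
    (h2 : |y' - y| ≤ d) : |HH a t x' y' - HH a t x y| ≤ 4 / a * d := by
  have e : |max |x'| |y'| - max |x| (|y|)| ≤ d := (abs_max_sub_max_le_max _ _ _ _).trans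
    (max_le ((abs_abs_sub_abs_le _ _).trans h1) ((abs_abs_sub_abs_le _ _).trans h2))
  have p : 0 < 4 / a := by positivity
  unfold HH
  rw [max_comm 0, max_comm 0]
  refine (abs_max_sub_max_le_abs _ _ _).trans ((abs_min_sub_min_le_max _ _ _ _).trans ?_)
  rw [sub_self, abs_zero, ← mul_sub, abs_mul, abs_of_pos p, sub_sub_sub_cancel_left, abs_sub_comm]
  exact max_le (mul_nonneg p.le ((abs_nonneg _).trans e)) (mul_le_mul_of_nonneg_left e p.le)

theorem HH_zero {a t x y : ℝ} (ha : 0 < a) (h : t ≤ |x| ∨ t ≤ |y|) : HH a t x y = 0 :=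
  max_eq_left ((min_le_right _ _).trans (mul_nonpos_of_nonneg_of_nonpos (by positivity)
    (sub_nonpos.2 (le_max_iff.2 h))))

theorem HH_one {a t x y : ℝ} (ha : 0 < a) (h1 : |x| ≤ t - a / 4) (h2 : |y| ≤ t - a / 4) :
    HH a t x y = 1 := by
  have : 4 / a * (a / 4) ≤ 4 / a * (t - max |x| |y|) :=
    mul_le_mul_of_nonneg_left (by linarith [max_le h1 h2]) (by positivity)
  rw [(by field_simp : 4 / a * (a / 4) = 1)] at this
  unfold HH
  rw [min_eq_left this, max_eq_right zero_le_one]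

theorem HH_neg (a t x y : ℝ) : HH a t x (-y) = HH a t x y := by simp [HH]

theorem cl_mono {M x y : ℝ} (h : x ≤ y) : cl M x ≤ cl M y :=
  max_le_max le_rfl (min_le_min le_rfl h)

theorem cl_abs {M : ℝ} (hM : 0 ≤ M) (x : ℝ) : |cl M x| ≤ M :=
  abs_le.2 ⟨le_max_left _ _, max_le (by linarith) (min_le_left _ _)⟩

theorem cl_or {M : ℝ} (hM : 0 ≤ M) (x : ℝ) : cl M x = x ∨ (M ≤ |x| ∧ |cl M x| = M) := by
  unfold cl
  rcases le_total M x with h | h
  · exact Or.inr ⟨h.trans (le_abs_self _), by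
      rw [min_eq_left h, max_eq_right (by linarith), abs_of_nonneg hM]⟩
  rcases le_total (-M) x with h' | h'
  · exact Or.inl (by rw [min_eq_right h, max_eq_right h'])
  · exact Or.inr ⟨by linarith [neg_le_abs x], by
      rw [min_eq_right h, max_eq_left h', abs_neg, abs_of_nonneg hM]⟩

theorem HH_cl {a t : ℝ} (ha : 0 < a) (ht : t ≤ a) (x u : ℝ) :
    HH a t x (u - x / 2) = HH a t (cl a x) (cl (2 * a) u - cl a x / 2) := by
  by_cases h : a ≤ |x|
  · rw [HH_zero ha (Or.inl (ht.trans h)), HH_zero ha (Or.inl ?_)]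
    rcases cl_or ha.le x with e | e
    · rw [e]; exact ht.trans h
    · rw [e.2]; exact ht
  have k : ∀ v : ℝ, 2 * a ≤ |v| → t ≤ |v - x / 2| := fun v hv => by
    have := abs_sub_abs_le_abs_sub v (x / 2)
    rw [abs_div, abs_two] at this
    linarith [not_le.1 h]
  rw [(cl_or ha.le x).resolve_right fun e => h e.1]
  rcases cl_or (by linarith : 0 ≤ 2 * a) u with e | e
  · rw [e]
  · rw [HH_zero ha (Or.inr (k _ e.1)), HH_zero ha (Or.inr (k _ e.2.ge))]

theorem HH_tv {a t : ℝ} (ha : 0 < a) (ht : t ≤ a) {x u x' u' : ℝ} (h1 : x ≤ x') (h2 : u ≤ u') :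
    |HH a t x' (u' - x' / 2) - HH a t x (u - x / 2)| ≤
      4 / a * (cl a x' + cl (2 * a) u') - 4 / a * (cl a x + cl (2 * a) u) := by
  have c1 := cl_mono (M := a) h1
  have c2 := cl_mono (M := 2 * a) h2
  rw [HH_cl ha ht, HH_cl ha ht x, ← mul_sub]
  exact HH_lip ha t (abs_le.2 ⟨by linarith, by linarith⟩) (abs_le.2 ⟨by linarith, by linarith⟩)

/-- the cut-off -/
noncomputable def phc (n Ψ : ℤ × ℤ → ℝ) (a t : ℝ) (R : ℕ) (z : ℤ × ℤ) : ℝ :=
  if nrm z ≤ R then HH a t (n z) (Ψ z) else 0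

theorem cut {n Ψ : ℤ × ℤ → ℝ} {lam : Bool → ℤ × ℤ → ℝ} {a t : ℝ} {R : ℕ} (ha : 0 < a) (ht : t ≤ a)
    (h1 : ∀ b z, 0 ≤ n (z + dir b) - n z ∧ n (z + dir b) - n z ≤ lam b z)
    (h2 : ∀ b z, |Ψ (z + dir b) - Ψ z| ≤ lam b z)
    (h3 : ∀ z, Ψ z - Ψ (z + dir true) ≤ (n (z + dir true) - n z) / 2)
    (h4 : ∀ z, Ψ (z + dir false) - Ψ z ≤ (n (z + dir false) - n z) / 2)
    (h5 : ∀ z, nrm z = R → a < |n z| ∨ a < |Ψ z|) :
    Cut R (4 / a) (100 * (R + 1)) lam (phc n Ψ a t R) := by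
  have supp : ∀ z, (R : ℤ) ≤ nrm z → phc n Ψ a t R z = 0 := fun z hz => by
    unfold phc
    split_ifs with h
    · exact HH_zero ha ((h5 z (le_antisymm h hz)).imp (fun e => by linarith) fun e => by linarith)
    · rfl
  have two : ∀ b z, ww (phc n Ψ a t R) b z = 0 ∨ (nrm z ≤ R ∧ ww (phc n Ψ a t R) b z =
      |HH a t (n (z + dir b)) (Ψ (z + dir b)) - HH a t (n z) (Ψ z)|) := fun b z => by
    by_cases h : nrm z ≤ R ∧ nrm (z + dir b) ≤ R
    · exact Or.inr ⟨h.1, by simp only [ww, phc, if_pos h.1, if_pos h.2]⟩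
    · have : (R : ℤ) ≤ nrm z ∧ (R : ℤ) ≤ nrm (z + dir b) := by
        cases b <;> simp only [nrm, dir, Prod.fst_add, Prod.snd_add, add_zero, abs_eq_max_neg]
          at h ⊢ <;> omega
      exact Or.inl (by rw [ww, supp _ this.1, supp _ this.2, sub_self, abs_zero])
  have p : 0 < 4 / a := by positivity
  refine ⟨fun z => ?_, supp, fun b z => ?_, fun b J => ?_⟩
  · unfold phc
    split_ifs
    · exact ⟨le_max_left _ _, max_le zero_le_one (min_le_left _ _)⟩
    · exact ⟨le_rfl, zero_le_one⟩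
  · rcases two b z with e | ⟨-, e⟩ <;> rw [e]
    · exact mul_nonneg p.le ((h1 b z).1.trans (h1 b z).2)
    · exact HH_lip ha t (by rw [abs_of_nonneg (h1 b z).1]; exact (h1 b z).2) (h2 b z)
  · obtain ⟨u, u1, u2⟩ : ∃ u : ℤ × ℤ → ℝ, (∀ z, u z ≤ u (z + dir b)) ∧
        ∀ z, HH a t (n z) (Ψ z) = HH a t (n z) (u z - n z / 2) := by
      cases b
      · exact ⟨fun z => n z / 2 - Ψ z, fun z => by linarith [h4 z], fun z => by
          rw [← HH_neg]; congr 1; ring⟩
      · exact ⟨fun z => n z / 2 + Ψ z, fun z => by linarith [h3 z], fun z => by congr 1; ring⟩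
    have t1 := box_tel (fun z => 4 / a * (cl a (n z) + cl (2 * a) (u z))) (M := 12) (fun z => by
      have := (abs_add_le _ _).trans (add_le_add (cl_abs ha.le (n z))
        (cl_abs (by linarith : 0 ≤ 2 * a) (u z)))
      rw [abs_mul, abs_of_pos p]
      exact (mul_le_mul_of_nonneg_left this p.le).trans (le_of_eq (by field_simp; ring))) R b
    have tv := fun z => HH_tv ha ht (sub_nonneg.1 (h1 b z).1) (u1 z)
    rw [← sum_filter_ne_zero]
    refine le_trans (sum_le_sum fun z hz => ?_) ((sum_le_sum_of_subset_of_nonneg (fun z hz => ?_)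
      fun z _ _ => (abs_nonneg _).trans (tv z)).trans (t1.trans (by
        have : (0 : ℝ) ≤ R := by positivity
        linarith)))
    · rw [((two b z).resolve_left (mem_filter.1 hz).2).2, u2, u2]
      exact tv z
    · have := ((two b z).resolve_left (mem_filter.1 hz).2).1
      simp only [nrm, abs_eq_max_neg] at this
      simp only [mem_product, mem_Ico]
      omega

end CutA
open CutA

theorem cut_row : CutStmt := by
  intro n Ψ lam a R ha h1 h2 h3 h4 h5
  refine ⟨phc n Ψ a (a / 2) R, phc n Ψ a a R, cut ha (by linarith) h1 h2 h3 h4 h5,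
    cut ha le_rfl h1 h2 h3 h4 h5, fun z hz => ?_, fun z hz e1 e2 => ?_⟩
  · unfold phc at hz ⊢
    split_ifs at hz ⊢ with h
    · have := not_or.1 fun e => hz (HH_zero ha e)
      exact HH_one ha (by linarith [not_le.1 this.1]) (by linarith [not_le.1 this.2])
    · exact absurd rfl hz
  · rw [phc, if_pos hz]
    exact HH_one ha (by linarith) (by linarith)

end Pool.Agent.MP_151d89_pr.H34
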