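import Pool.Agent.MP_151d89_pr.H34.Spec
import Pool.Agent.MP_151d89_pr.H45.DK

/-!
Splitting a tower at a site which carries descending legs.
-/

set_option autoImplicit false
open MeasureTheory Finset

namespace Pool.Agent.MP_151d89_pr.H34
open Pool.Agent.MP_151d89_pr.H82 Pool.Agent.MP_151d89_pr.H33 Pool.Agent.MP_151d89_pr.H67
open Pool.Agent.MP_151d89_pr.H30 Pool.Agent.MP_151d89_pr.H27 Pool.Agent.MP_151d89_pr.H30W
open Pool.Agent.MP_151d89_pr.H30.RunAux (pt_pt)
open Classical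

namespace DKBA

variable {μ : Measure Conf}

theorem leg_lo {b b' : Bool} {x : ℤ × ℤ} {t : ℕ} {f : Conf} (h : Leg b' x t f) : Lo b x f := by
  have a1 := h.1 1 (by omega)
  have a2 := (h.2 0 (Nat.zero_le _)).1
  rw [Nat.cast_one, H45.pt_one] at a1
  rw [Nat.cast_zero, pt_zero, sub_zero] at a2
  cases b <;> cases b' <;> first | exact a1 | exact a2

theorem split (hμ : Gibbs μ) (hT : Triv μ) (b b' : Bool) (z : ℤ × ℤ) (i j t : ℕ) :
    μ.real {f | Leg b' (pt b z i) t f} * pp μ b z (i + j + 1) ≤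
      μ.real ({f | Rdg b z i f} ∩ {f | Leg b' (pt b z i) t f}) * pp μ b (pt b z (i + 1)) j := by
  have := hμ.1
  have k : ∀ u v r : Conf, Hom u → Hom v → Hom r → Leg b' (pt b z i) t u →
      Av (-1) (b, z, i + j) v →
      (∀ y, r y - r (pt b z i) = min (u y - u (pt b z i)) (v y - v (pt b z i))) →
      r ∈ {f | Rdg b z i f} ∩ {f | Leg b' (pt b z i) t f} := fun u v r hu hv hr h1 h2 h3 =>
    ⟨H45.dec_Rdg b z i v r hv hr
      ⟨fun s hs => (H45.av_rdg h2).1.1 s (by omega), (H45.av_rdg h2).1.2⟩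
        fun y => (h3 y).le.trans (min_le_right _ _),
      H45.dec_Dn b' _ t u r hu hr h1 fun y => (h3 y).le.trans (min_le_left _ _)⟩
  have m := (H45.meas_Rdg b z i).inter (H45.meas_Dn b' (pt b z i) t)
  rcases j with _ | d
  · have h := H45.pin4 hμ hT (z := pt b z i) (H45.meas_Dn b' (pt b z i) t)
      (meas_Av (-1) (b, z, i + 0)) m MeasurableSet.univ
      fun u v r _ hu hv hr _ h1 h2 h3 _ => ⟨k u v r hu hv hr h1 h2 h3, trivial⟩
    rwa [probReal_univ] at h
  · refine H45.pin4 hμ hT (z := pt b z i) (H45.meas_Dn b' (pt b z i) t)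
      (meas_Av (-1) (b, z, i + (d + 1))) m (meas_Av (-1) (b, pt b z (i + 1), d))
      fun u v r s hu hv hr hs h1 h2 h3 h4 => ⟨k u v r hu hv hr h1 h2 h3, ?_⟩
    have e : i + (d + 1) = i + 1 + d := by ring
    rw [e] at h2
    have h0 : Lo b (pt b z i) u := leg_lo h1
    obtain ⟨a1, a2⟩ := H45.av_rdg h2
    obtain ⟨-, a4⟩ := H45.four_rdg hu hr h0 a1 h3 h4 hv
    refine H45.rdg_av hs a4 ?_
    have b1 := h4 (pt b z (i + 1 + d : ℕ))
    have b2 := h4 (pt b z (i + 1 + d : ℕ) + dir b)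
    have b3 := a1.1 i (by omega)
    have b4 := a1.1 (i + 1 + d) le_rfl
    have b5 := (H45.lip_pt hu b z (i + 1 + d : ℕ) i).1
    have b6 := (H45.lip_pt hu b z ((i + 1 + d : ℕ) + 1) (i + 1)).1
    rw [Int.abs_eq_natAbs] at b5 b6
    simp only [Lo, H45.pt_add] at h0 a2 b2
    simp only [Lo]
    have e' : (i : ℤ) + 1 + d = (i + 1 + d : ℕ) := by push_cast; ring
    rw [pt_pt, e', H45.pt_add]
    omega

theorem flips (hμ : Gibbs μ) (b b' : Bool) (z : ℤ × ℤ) (i : ℕ) (I : Finset ℕ) :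
    ∑ t ∈ I, μ.real ({f | Rdg b z i f} ∩ {f | Leg b' (pt b z i) t f}) ≤ pp μ b z i := by
  have := hμ.1
  rcases i with _ | l
  · refine (H45.flipDn hμ (H45.meas_Rdg b z 0) MeasurableSet.univ I (fun f _ h => ?_)
      fun _ _ _ _ _ _ => trivial).trans measureReal_le_one
    obtain ⟨-, a1, -, a2⟩ := h
    rw [Nat.cast_zero, pt_zero]
    cases b <;> cases b' <;> first | exact a1 | exact a2
  · exact H45.flipDn hμ (H45.meas_Rdg b z (l + 1)) (meas_Av (-1) (b, z, l)) I
      (fun _ hf h => H45.rdg_low hf b' h) fun t _ _ hf h h' =>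
        H45.rdg_av (H45.hom_Dn hf h' (H45.rdg_low hf b' h)) (H45.rdg_mv t h) (H45.run_mv t h.1).2

end DKBA

theorem dkB_row : DKBStmt := by
  intro μ hμ hT b b' z i j
  have p0 : ∀ x k, 0 ≤ pp μ b x k := fun x k => by
    cases k
    · exact zero_le_one
    · exact measureReal_nonneg
  rw [one_mul, mul_comm]
  refine H45.mul_tsum_le (p0 _ _) (fun _ => measureReal_nonneg) fun T => ?_
  rw [mul_comm, sum_mul]
  refine (sum_le_sum fun t _ => DKBA.split hμ hT b b' z i j t).trans ?_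
  rw [← sum_mul]
  exact mul_le_mul_of_nonneg_right (DKBA.flips hμ b b' z i _) (p0 _ _)

end Pool.Agent.MP_151d89_pr.H34
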