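import Pool.Agent.MP_151d89_pr.H34.Spec
import Pool.Agent.MP_151d89_pr.H45.DK
import Pool.Agent.MP_151d89_pr.H35.Flip

/-!
Splitting a tower at a site, weighted by the descent probabilities of the two edges at the site.
-/

set_option autoImplicit false
open MeasureTheory

namespace Pool.Agent.MP_151d89_pr.H34
open Pool.Agent.MP_151d89_pr.H82 Pool.Agent.MP_151d89_pr.H33 Pool.Agent.MP_151d89_pr.H67
open Pool.Agent.MP_151d89_pr.H30 Pool.Agent.MP_151d89_pr.H27 Pool.Agent.MP_151d89_pr.H30W

namespace DKcA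

variable {μ : Measure Conf}

theorem nn (b : Bool) (z : ℤ × ℤ) (k : ℕ) : 0 ≤ pp μ b z k := by
  cases k
  · exact zero_le_one
  · exact measureReal_nonneg

theorem le1 (hμ : Gibbs μ) (E : Set Conf) : μ.real E ≤ 1 := by
  have := hμ.1
  exact measureReal_le_one

theorem init (hμ : Gibbs μ) (b : Bool) (z : ℤ × ℤ) (k : ℕ) : pp μ b z (k + 1) ≤ pp μ b z k := by
  cases k with
  | zero => exact le1 hμ _
  | succ k =>
    simp only [pp]
    rw [H45.p_rev hμ, H45.p_rev hμ]
    exact H45.real_mono hμ fun f _ h => H35.av_init h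

theorem tail (hμ : Gibbs μ) (b : Bool) (z : ℤ × ℤ) (k : ℕ) :
    pp μ b z (k + 1) ≤ pp μ b (z + dir b) k := by
  cases k with
  | zero => exact le1 hμ _
  | succ k => exact H45.real_mono hμ fun f hf h => H35.av_tail hf h

theorem succ (b : Bool) (z : ℤ × ℤ) (t : ℤ) : pt b z (t + 1) = pt b z t + dir b := by
  simp only [pt, add_smul, one_smul, add_assoc]

theorem lo (hμ : Gibbs μ) (hT : Triv μ) (b : Bool) (z : ℤ × ℤ) (i j : ℕ) :
    μ.real {f | Lo b (pt b z i) f} * pp μ b z (i + j + 1) ≤
      pp μ b z i * pp μ b (pt b z (i + 1)) j := by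
  cases j with
  | zero =>
    have h1 := mul_le_mul_of_nonneg_right (le1 hμ {f | Lo b (pt b z i) f}) (nn (μ := μ) b z (i + 1))
    have h2 := init hμ b z i
    simp only [pp, mul_one] at h1 h2 ⊢
    linarith
  | succ d =>
    have h := H45.dk hμ hT b z i d
    have e : i + (d + 1) = i + 1 + d := by omega
    rw [e]
    push_cast at h
    exact h.trans (mul_le_mul_of_nonneg_right (init hμ b z i) measureReal_nonneg)

theorem hi (hμ : Gibbs μ) (hT : Triv μ) (b : Bool) (z : ℤ × ℤ) (i j : ℕ) :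
    μ.real {f | Hi b (pt b z i) f} * pp μ b z (i + j + 1) ≤
      pp μ b z i * pp μ b (pt b z (i + 1)) j := by
  have h2 := tail hμ b (pt b z i) j
  rw [← succ] at h2
  cases i with
  | zero =>
    have h1 := mul_le_mul_of_nonneg_right (le1 hμ {f | Hi b (pt b z (0 : ℕ)) f})
      (nn (μ := μ) b z (0 + j + 1))
    have e : pt b z ((0 : ℕ) : ℤ) = z := by simp [pt]
    rw [e] at h2
    rw [one_mul] at h1
    refine h1.trans ?_
    rw [zero_add]
    simpa only [pp, one_mul] using h2
  | succ c =>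
    have h := H45.dk hμ hT b z c j
    have e : {f | Hi b (pt b z ((c + 1 : ℕ) : ℤ)) f} = {f | Lo b (pt b z c) f} := by
      ext f
      rw [Nat.cast_succ, succ, Set.mem_setOf_eq, Set.mem_setOf_eq]
      exact H45.hi_iff b _ f
    rw [e]
    exact h.trans (mul_le_mul_of_nonneg_left h2 measureReal_nonneg)

end DKcA

theorem dkc_row : DKcStmt := fun μ hμ hT b z i j => by
  have h1 := DKcA.lo hμ hT b z i j
  have h2 := DKcA.hi hμ hT b z i j
  simp only [cc, add_mul]
  linarith

end Pool.Agent.MP_151d89_pr.H34
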