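import Pool.Agent.MP_151d89_pr.H34.Spec

/-!
Row Diag: the diagonal terms of the tower energy.
-/

set_option autoImplicit false
open MeasureTheory Finset

namespace Pool.Agent.MP_151d89_pr.H34
open Pool.Agent.MP_151d89_pr.H82 Pool.Agent.MP_151d89_pr.H33 Pool.Agent.MP_151d89_pr.H67
open Pool.Agent.MP_151d89_pr.H30 Pool.Agent.MP_151d89_pr.H27 Pool.Agent.MP_151d89_pr.H30W
open Classical

namespace DiagA

theorem ptpt (b : Bool) (x : ℤ × ℤ) (s t : ℤ) : pt b (pt b x s) t = pt b x (s + t) := by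
  simp [pt, add_smul, add_assoc]

theorem pt0 (b : Bool) (x : ℤ × ℤ) : pt b x 0 = x := by simp [pt]

theorem rr_nn (l : ℕ) : 0 ≤ rr l := by unfold rr; positivity

theorem rr_le (l : ℕ) : ((l : ℝ) + 2) ^ 4 * rr l ≤ 128 ^ 4 := by
  have h1 : l + 2 ≤ 128 * 2 ^ (l / 64) := by
    have := Nat.lt_two_pow_self (n := l / 64)
    omega
  have h2 : (l + 2) ^ 4 ≤ 128 ^ 4 * 2 ^ (l / 16) := by
    calc (l + 2) ^ 4 ≤ (128 * 2 ^ (l / 64)) ^ 4 := Nat.pow_le_pow_left h1 4
      _ = 128 ^ 4 * 2 ^ ((l / 64) * 4) := by rw [mul_pow, ← pow_mul]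
      _ ≤ _ := Nat.mul_le_mul_left _ (Nat.pow_le_pow_right (by norm_num) (by omega))
  have h3 : ((l : ℝ) + 2) ^ 4 ≤ 128 ^ 4 * 2 ^ (l / 16) := by exact_mod_cast h2
  unfold rr
  rw [one_div, inv_pow, ← div_eq_mul_inv, div_le_iff₀ (by positivity)]
  exact h3

/-- a summable weight -/
noncomputable def g (a : ℕ) : ℝ := 1 / (((a : ℝ) + 1) * (a + 2))

theorem g_nn (a : ℕ) : 0 ≤ g a := by unfold g; positivity

theorem g_sum (K : ℕ) : ∑ a ∈ range K, g a ≤ 1 := by
  have : ∑ a ∈ range K, g a = 1 - 1 / ((K : ℝ) + 1) := by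
    induction K with
    | zero => simp
    | succ n ih => rw [sum_range_succ, ih]; unfold g; push_cast; field_simp; ring
  rw [this]
  have : 0 ≤ 1 / ((K : ℝ) + 1) := by positivity
  linarith

theorem key {a l : ℕ} (h : a ≤ l) : ((l : ℝ) + 2) * rr l * (a + 2) ≤ 128 ^ 4 * g a := by
  have h1 : (a : ℝ) ≤ l := by exact_mod_cast h
  have h0 : (0 : ℝ) ≤ a := Nat.cast_nonneg a
  unfold g
  rw [mul_one_div, le_div_iff₀ (by positivity)]
  refine le_trans ?_ (rr_le l)
  have h2 : ((a : ℝ) + 2) * ((a + 1) * (a + 2)) ≤ (l + 2) * ((l + 2) * (l + 2)) :=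
    mul_le_mul (by linarith) (mul_le_mul (by linarith) (by linarith) (by linarith) (by linarith))
      (by positivity) (by linarith)
  have h3 := mul_le_mul_of_nonneg_left h2
    (mul_nonneg (by linarith : (0 : ℝ) ≤ l + 2) (rr_nn l))
  calc _ = ((l : ℝ) + 2) * rr l * ((a + 2) * ((a + 1) * (a + 2))) := by ring
    _ ≤ _ := h3
    _ = _ := by ring

theorem sum_inj {α β : Type} (s : Finset α) (t : Finset β) (i : α → β) {f : α → ℝ} {h : β → ℝ}
    (hi : ∀ a ∈ s, f a ≠ 0 → i a ∈ t)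
    (inj : ∀ a ∈ s, ∀ a' ∈ s, f a ≠ 0 → f a' ≠ 0 → i a = i a' → a = a')
    (le : ∀ a ∈ s, f a ≠ 0 → f a ≤ h (i a)) (h0 : ∀ b ∈ t, 0 ≤ h b) :
    ∑ a ∈ s, f a ≤ ∑ b ∈ t, h b := by
  rw [← sum_filter_ne_zero]
  calc ∑ a ∈ s with f a ≠ 0, f a ≤ ∑ a ∈ s with f a ≠ 0, h (i a) :=
        sum_le_sum fun a ha => le a (mem_filter.1 ha).1 (mem_filter.1 ha).2
    _ = ∑ b ∈ (s.filter fun a => f a ≠ 0).image i, h b := by
        rw [sum_image]
        intro a ha a' ha' e
        exact inj a (mem_filter.1 ha).1 a' (mem_filter.1 ha').1 (mem_filter.1 ha).2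
          (mem_filter.1 ha').2 e
    _ ≤ ∑ b ∈ t, h b := by
        refine sum_le_sum_of_subset_of_nonneg (fun b hb => ?_) fun b hb _ => h0 b hb
        obtain ⟨a, ha, rfl⟩ := mem_image.1 hb
        exact hi a (mem_filter.1 ha).1 (mem_filter.1 ha).2

theorem shift_le (f : ℕ → ℝ) (hf : ∀ k, 0 ≤ f k) (a K : ℕ) :
    ∑ i ∈ range K, (if a ≤ i then f (i - a) else 0) ≤ ∑ k ∈ range K, f k := by
  refine sum_inj _ _ (fun i => i - a) (fun i hi _ => ?_) (fun i _ j _ h1 h2 e => ?_)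
    (fun i _ h => ?_) fun k _ => hf k
  · have := mem_range.1 hi
    exact mem_range.2 (by omega)
  · have a1 : a ≤ i := by by_contra c; exact h1 (if_neg c)
    have a2 : a ≤ j := by by_contra c; exact h2 (if_neg c)
    have e' : i - a = j - a := e
    omega
  · have a1 : a ≤ i := by by_contra c; exact h (if_neg c)
    rw [if_pos a1]

theorem half {X : Type} (S : Finset X) (w B : X → ℝ) (La G : ℝ) (K : ℕ) (T : X → ℕ → ℝ)
    (P E : X → ℕ → ℕ → ℝ) (hLa : 0 ≤ La) (hw0 : ∀ x, 0 ≤ w x) (hB : ∀ x, 0 ≤ B x)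
    (hw : ∀ x, w x ≤ La * (B x + 2)) (hT : ∀ x i, 0 ≤ T x i) (hP : ∀ x a k, 0 ≤ P x a k)
    (hE : ∀ x a k, 0 ≤ E x a k) (hE0 : ∀ x (i : ℕ), E x 0 i ≤ i)
    (hEa : ∀ x (a k : ℕ), E x 0 (a + k) ≤ E x a k + a)
    (hc : ∀ x (i l : ℕ), l ≤ i → (B x - l) * T x i ≤ rr l * ∑ a ∈ range (l + 1), P x a (i - a))
    (h2 : ∀ x i, ∑ a ∈ range (i + 1), P x a (i - a) ≤ 2)
    (hG : ∀ a, ∑ x ∈ S, ∑ k ∈ range K, P x a k * (E x a k + 1) ≤ G) :
    ∑ x ∈ S, ∑ i ∈ range K, w x * B x * (T x i * (E x 0 i + 1)) ≤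
      4 * 128 ^ 4 * (La * G + ∑ x ∈ S, w x) := by
  have hPE : ∀ x a k, 0 ≤ P x a k * (E x a k + 1) := fun x a k =>
    mul_nonneg (hP x a k) (by linarith [hE x a k])
  have G0 : 0 ≤ G := le_trans (sum_nonneg fun x _ => sum_nonneg fun k _ => hPE x 0 k) (hG 0)
  have pw : ∀ x, ∀ i ∈ range K, w x * B x * (T x i * (E x 0 i + 1)) ≤
      4 * 128 ^ 4 * (La * ∑ a ∈ range K, g a *
        (if a ≤ i then P x a (i - a) * (E x a (i - a) + 1) else 0) + w x * g i) := by
    intro x i hi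
    have hi' := mem_range.1 hi
    have t0 : ∀ a, 0 ≤ g a * (if a ≤ i then P x a (i - a) * (E x a (i - a) + 1) else 0) := by
      intro a
      refine mul_nonneg (g_nn a) ?_
      split_ifs
      · exact hPE _ _ _
      · exact le_rfl
    have s0 := mul_nonneg hLa (sum_nonneg fun a (_ : a ∈ range K) => t0 a)
    have e0 := hE x 0 i
    rcases le_or_gt (i : ℝ) (B x / 2) with c | c
    · have a1 := hc x i i le_rfl
      have a2 := mul_le_mul_of_nonneg_left (h2 x i) (rr_nn i)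
      have a3 : B x * T x i ≤ 4 * rr i := by nlinarith [hT x i]
      have a4 := key (le_refl i)
      have i0 : (0 : ℝ) ≤ i := Nat.cast_nonneg i
      have a5 : rr i * (E x 0 i + 1) ≤ 128 ^ 4 * g i := by
        refine le_trans ?_ a4
        have := hE0 x i
        have b1 : E x 0 i + 1 ≤ ((i : ℝ) + 2) * (i + 2) := by nlinarith
        calc _ ≤ rr i * (((i : ℝ) + 2) * (i + 2)) := mul_le_mul_of_nonneg_left b1 (rr_nn i)
          _ = _ := by ring
      have a6 : B x * T x i * (E x 0 i + 1) ≤ 4 * (128 ^ 4 * g i) := by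
        have := mul_le_mul_of_nonneg_right a3 (by linarith : 0 ≤ E x 0 i + 1)
        linarith
      have a7 := mul_le_mul_of_nonneg_left a6 (hw0 x)
      calc _ = w x * (B x * T x i * (E x 0 i + 1)) := by ring
        _ ≤ _ := a7
        _ ≤ _ := by linarith
    · obtain ⟨l, l1, l2⟩ : ∃ l : ℕ, (l : ℝ) ≤ B x / 2 ∧ B x / 2 < l + 1 :=
        ⟨⌊B x / 2⌋₊, Nat.floor_le (by linarith [hB x]), Nat.lt_floor_add_one _⟩
      have li : l ≤ i := by
        have : (l : ℝ) ≤ i := by linarith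
        exact_mod_cast this
      have a1 := hc x i l li
      have a3 : B x * T x i ≤ 2 * (rr l * ∑ a ∈ range (l + 1), P x a (i - a)) := by
        nlinarith [hT x i]
      have a4 : w x ≤ La * (2 * (l + 2)) :=
        (hw x).trans (mul_le_mul_of_nonneg_left (by linarith) hLa)
      have a5 : ((l : ℝ) + 2) * (rr l * ∑ a ∈ range (l + 1), P x a (i - a)) * (E x 0 i + 1) ≤
          128 ^ 4 * ∑ a ∈ range K, g a *
            (if a ≤ i then P x a (i - a) * (E x a (i - a) + 1) else 0) := by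
        refine le_trans ?_ (mul_le_mul_of_nonneg_left (sum_le_sum_of_subset_of_nonneg
          (range_subset_range.2 (by omega : l + 1 ≤ K)) fun a _ _ => t0 a) (by positivity))
        rw [mul_sum, mul_sum, mul_sum, sum_mul]
        refine sum_le_sum fun a ha => ?_
        have al : a ≤ l := by have := mem_range.1 ha; omega
        rw [if_pos (al.trans li)]
        have b1 := hEa x a (i - a)
        rw [show a + (i - a) = i by omega] at b1
        have a0 : (0 : ℝ) ≤ a := Nat.cast_nonneg a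
        have b2 : E x 0 i + 1 ≤ (a + 2) * (E x a (i - a) + 1) := by
          nlinarith [hE x a (i - a)]
        have b3 := mul_le_mul_of_nonneg_right (key al) (hPE x a (i - a))
        have b4 : 0 ≤ ((l : ℝ) + 2) * (rr l * P x a (i - a)) :=
          mul_nonneg (by positivity) (mul_nonneg (rr_nn l) (hP _ _ _))
        calc _ ≤ ((l : ℝ) + 2) * (rr l * P x a (i - a)) * ((a + 2) * (E x a (i - a) + 1)) :=
              mul_le_mul_of_nonneg_left b2 b4
          _ = ((l : ℝ) + 2) * rr l * (a + 2) * (P x a (i - a) * (E x a (i - a) + 1)) := by ring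
          _ ≤ _ := b3
          _ = _ := by ring
      have a6 : w x * (B x * T x i) ≤
          La * (2 * (l + 2)) * (2 * (rr l * ∑ a ∈ range (l + 1), P x a (i - a))) :=
        mul_le_mul a4 a3 (mul_nonneg (hB x) (hT x i)) (by positivity)
      have a7 := mul_le_mul_of_nonneg_right a6 (by linarith : 0 ≤ E x 0 i + 1)
      have a8 := mul_le_mul_of_nonneg_left a5 hLa
      have a9 := mul_nonneg (hw0 x) (g_nn i)
      calc _ = w x * (B x * T x i) * (E x 0 i + 1) := by ring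
        _ ≤ _ := a7
        _ = 4 * (La * (((l : ℝ) + 2) * (rr l * ∑ a ∈ range (l + 1), P x a (i - a)) *
              (E x 0 i + 1))) := by ring
        _ ≤ _ := by linarith
  refine (sum_le_sum fun x _ => sum_le_sum (pw x)).trans ?_
  simp only [← mul_sum, sum_add_distrib]
  refine mul_le_mul_of_nonneg_left (add_le_add (mul_le_mul_of_nonneg_left ?_ hLa)
    (sum_le_sum fun x _ => ?_)) (by positivity)
  · calc _ = ∑ a ∈ range K, g a * ∑ x ∈ S, ∑ i ∈ range K,
            (if a ≤ i then P x a (i - a) * (E x a (i - a) + 1) else 0) := by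
          simp only [mul_sum]
          rw [sum_comm (s := range K) (t := S)]
          exact sum_congr rfl fun x _ => sum_comm
      _ ≤ ∑ a ∈ range K, g a * G := by
          refine sum_le_sum fun a _ => mul_le_mul_of_nonneg_left (le_trans ?_ (hG a)) (g_nn a)
          exact sum_le_sum fun x _ => shift_le (fun k => P x a k * (E x a k + 1)) (hPE x a) a K
      _ ≤ G := by
          rw [← sum_mul]
          nlinarith [g_sum K]
  · nlinarith [g_sum K, hw0 x]

variable {b : Bool} {p : ℤ × ℤ → ℕ → ℝ} {B c w e : ℤ × ℤ → ℝ} {S : Finset (ℤ × ℤ)} {La F : ℝ}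

theorem WW_nn (h : Dat b p B c w e S La F) (z : ℤ × ℤ) (k : ℕ) : 0 ≤ WW b e z k :=
  sum_nonneg fun _ _ => (h.eb _).1

theorem WW_le (h : Dat b p B c w e S La F) (z : ℤ × ℤ) (k : ℕ) : WW b e z k ≤ k := by
  have := sum_le_card_nsmul (range k) (fun i : ℕ => e (pt b z i)) 1 fun i _ => (h.eb _).2
  simpa [WW] using this

theorem WW_add (b : Bool) (e : ℤ × ℤ → ℝ) (z : ℤ × ℤ) (k a : ℕ) :
    WW b e z (k + a) = WW b e z k + WW b e (pt b z k) a := by
  unfold WW
  rw [sum_range_add]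
  simp only [ptpt, Nat.cast_add]

theorem fm' (h : Dat b p B c w e S La F) (σ : ℕ → ℤ) (K : ℕ) :
    ∑ x ∈ S, ∑ k ∈ range K, p (pt b x (σ k)) k * WW b e (pt b x (σ k)) k ≤ F := by
  refine le_trans (le_of_eq ?_)
    (h.fm ((S ×ˢ range K).image fun q : (ℤ × ℤ) × ℕ => (pt b q.1 (σ q.2), q.2)))
  rw [sum_image, sum_product]
  rintro ⟨x, k⟩ _ ⟨x', k'⟩ _ hh
  simp only [Prod.mk.injEq] at hh
  obtain ⟨h1, rfl⟩ := hh
  have : x = x' := add_right_cancel h1
  rw [this]

theorem out2 (h : Dat b p B c w e S La F) (z : ℤ × ℤ) (K : ℕ) : ∑ k ∈ range K, p z k ≤ 2 := by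
  cases K with
  | zero => simp
  | succ n =>
    rw [sum_range_succ', h.li.p0]
    linarith [(h.li.oi z n).1]

theorem in2 (h : Dat b p B c w e S La F) (y : ℤ × ℤ) (K : ℕ) :
    ∑ k ∈ range K, p (pt b y (-(k : ℤ))) k ≤ 2 := by
  cases K with
  | zero => simp
  | succ n =>
    rw [sum_range_succ', h.li.p0]
    have := (h.li.oi (pt b y (-1)) n).2
    have e1 : ∀ i : ℕ, pt b (pt b y (-1)) (-(i : ℤ)) = pt b y (-((i + 1 : ℕ) : ℤ)) := by
      intro i
      rw [ptpt]
      congr 1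
      push_cast
      ring
    simp only [e1] at this
    linarith

theorem gg (h : Dat b p B c w e S La F) (σ : ℕ → ℤ) (K : ℕ)
    (h2 : ∀ x, ∑ k ∈ range K, p (pt b x (σ k)) k ≤ 2) :
    ∑ x ∈ S, ∑ k ∈ range K, p (pt b x (σ k)) k * (WW b e (pt b x (σ k)) k + 1) ≤
      F + 2 * S.card := by
  simp only [mul_add, mul_one, sum_add_distrib]
  refine add_le_add (fm' h σ K) ?_
  have := sum_le_card_nsmul S _ 2 fun x _ => h2 x
  rw [nsmul_eq_mul] at this
  linarith

theorem w2 (h : Dat b p B c w e S La F) (x : ℤ × ℤ) : w x ≤ La * (B x + 2) :=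
  (h.wb x).2.trans (mul_le_mul_of_nonneg_left (by linarith [(h.li.cn x).2]) h.La0)

theorem halfD (h : Dat b p B c w e S La F) (K : ℕ) :
    ∑ x ∈ S, ∑ i ∈ range K, w x * B x * ((∑ j ∈ range K, p (pt b x (-(i : ℤ))) (i + j + 1)) *
      (WW b e (pt b x (-(i : ℤ))) i + 1)) ≤
      4 * 128 ^ 4 * (La * (F + 2 * S.card) + ∑ x ∈ S, w x) := by
  have := half S w B La (F + 2 * S.card) K
    (fun x i => ∑ j ∈ range K, p (pt b x (-(i : ℤ))) (i + j + 1))
    (fun x a k => p (pt b x (-((a + k : ℕ) : ℤ))) k)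
    (fun x a k => WW b e (pt b x (-((a + k : ℕ) : ℤ))) k) h.La0 (fun x => (h.wb x).1) h.li.Bn
    (w2 h) (fun x i => sum_nonneg fun _ _ => h.li.nn _ _) (fun x a k => h.li.nn _ _)
    (fun x a k => WW_nn h _ _) (fun x i => WW_le h _ _) ?_ ?_ ?_ ?_
  · simpa only [Nat.zero_add] using this
  · intro x a k
    simp only [Nat.zero_add]
    rw [show WW b e (pt b x (-((a + k : ℕ) : ℤ))) (a + k) =
      WW b e (pt b x (-((a + k : ℕ) : ℤ))) (k + a) by rw [Nat.add_comm k a], WW_add]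
    linarith [WW_le h (pt b (pt b x (-((a + k : ℕ) : ℤ))) k) a]
  · intro x i l hl
    have := h.li.corD (pt b x (-(i : ℤ))) i l K hl
    rw [ptpt, neg_add_cancel, pt0] at this
    refine this.trans (le_of_eq ?_)
    congr 1
    refine sum_congr rfl fun a ha => ?_
    have := mem_range.1 ha
    simp only [show a + (i - a) = i by omega]
  · intro x i
    refine le_trans (le_of_eq ?_) (out2 h (pt b x (-(i : ℤ))) (i + 1))
    rw [← sum_range_reflect (fun k => p (pt b x (-(i : ℤ))) k)]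
    refine sum_congr rfl fun a ha => ?_
    have := mem_range.1 ha
    simp only [show a + (i - a) = i by omega, show i + 1 - 1 - a = i - a by omega]
  · intro a
    refine gg h (fun k => -((a + k : ℕ) : ℤ)) K fun x => ?_
    refine le_trans (le_of_eq ?_) (in2 h (pt b x (-(a : ℤ))) K)
    refine sum_congr rfl fun k _ => ?_
    rw [ptpt]
    congr 2
    push_cast
    ring

theorem halfU (h : Dat b p B c w e S La F) (K : ℕ) :
    ∑ x ∈ S, ∑ j ∈ range K, w x * B x * ((∑ i ∈ range K, p (pt b x (-(i : ℤ))) (i + j + 1)) *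
      (WW b e (pt b x 1) j + 1)) ≤
      4 * 128 ^ 4 * (La * (F + 2 * S.card) + ∑ x ∈ S, w x) := by
  have := half S w B La (F + 2 * S.card) K
    (fun x j => ∑ i ∈ range K, p (pt b x (-(i : ℤ))) (i + j + 1))
    (fun x a k => p (pt b x (a + 1)) k)
    (fun x a k => WW b e (pt b x (a + 1)) k) h.La0 (fun x => (h.wb x).1) h.li.Bn
    (w2 h) (fun x i => sum_nonneg fun _ _ => h.li.nn _ _) (fun x a k => h.li.nn _ _)
    (fun x a k => WW_nn h _ _) (fun x i => WW_le h _ _) ?_ (fun x j l hl => h.li.corU x j l K hl)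
    ?_ fun a => gg h (fun _ => a + 1) K fun x => out2 h _ K
  · simpa only [Nat.cast_zero, zero_add] using this
  · intro x a k
    simp only [Nat.cast_zero, zero_add]
    rw [WW_add, ptpt, add_comm (1 : ℤ) a]
    linarith [WW_le h (pt b x 1) a]
  · intro x j
    refine le_trans (le_of_eq ?_) (in2 h (pt b x (j + 1)) (j + 1))
    rw [← sum_range_reflect (fun k => p (pt b (pt b x (j + 1)) (-(k : ℤ))) k)]
    refine sum_congr rfl fun a ha => ?_
    have := mem_range.1 ha
    simp only [show j + 1 - 1 - a = j - a by omega, ptpt]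
    congr 2
    omega

theorem cpart (h : Dat b p B c w e S La F) (K : ℕ) :
    ∑ x ∈ S, ∑ i ∈ range K, ∑ j ∈ range K, w x * c x * (p (pt b x (-(i : ℤ))) (i + j + 1) *
      ((WW b e (pt b x (-(i : ℤ))) i + 1) + (WW b e (pt b x 1) j + 1))) ≤
      24 * La * (F + 2 * S.card) := by
  have g1 := gg h (fun k => -(k : ℤ)) K fun x => in2 h x K
  have g2 := gg h (fun _ => 1) K fun x => out2 h _ K
  have pw : ∀ x, ∑ i ∈ range K, ∑ j ∈ range K, w x * c x * (p (pt b x (-(i : ℤ))) (i + j + 1) *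
      ((WW b e (pt b x (-(i : ℤ))) i + 1) + (WW b e (pt b x 1) j + 1))) ≤
      12 * La * (∑ i ∈ range K, p (pt b x (-(i : ℤ))) i * (WW b e (pt b x (-(i : ℤ))) i + 1) +
        ∑ j ∈ range K, p (pt b x 1) j * (WW b e (pt b x 1) j + 1)) := by
    intro x
    have a1 : w x * c x ≤ La * (B x + c x) * 2 :=
      mul_le_mul (h.wb x).2 (h.li.cn x).2 (h.li.cn x).1 ((h.wb x).1.trans (h.wb x).2)
    have s1 := in2 h x K
    have s2 := out2 h (pt b x 1) K
    have n1 : 0 ≤ ∑ i ∈ range K, p (pt b x (-(i : ℤ))) i * (WW b e (pt b x (-(i : ℤ))) i + 1) :=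
      sum_nonneg fun _ _ => mul_nonneg (h.li.nn _ _) (add_nonneg (WW_nn h _ _) zero_le_one)
    have n2 : 0 ≤ ∑ j ∈ range K, p (pt b x 1) j * (WW b e (pt b x 1) j + 1) :=
      sum_nonneg fun _ _ => mul_nonneg (h.li.nn _ _) (add_nonneg (WW_nn h _ _) zero_le_one)
    calc _ ≤ ∑ i ∈ range K, ∑ j ∈ range K, 6 * La *
          (p (pt b x (-(i : ℤ))) i * (WW b e (pt b x (-(i : ℤ))) i + 1) * p (pt b x 1) j +
            p (pt b x (-(i : ℤ))) i * (p (pt b x 1) j * (WW b e (pt b x 1) j + 1))) := by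
          refine sum_le_sum fun i _ => sum_le_sum fun j _ => ?_
          have d1 := h.li.dkc (pt b x (-(i : ℤ))) i j
          have d2 := h.li.dkB (pt b x (-(i : ℤ))) i j
          rw [ptpt, ptpt, neg_add_cancel, pt0, show -(i : ℤ) + (i + 1) = 1 by ring] at d1 d2
          have u0 : 0 ≤ (WW b e (pt b x (-(i : ℤ))) i + 1) + (WW b e (pt b x 1) j + 1) := by
            linarith [WW_nn h (pt b x (-(i : ℤ))) i, WW_nn h (pt b x 1) j]
          have b1 := mul_le_mul_of_nonneg_right a1 (h.li.nn (pt b x (-(i : ℤ))) (i + j + 1))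
          have b2 := mul_le_mul_of_nonneg_left (add_le_add d1 d2) h.La0
          have b3 : w x * c x * p (pt b x (-(i : ℤ))) (i + j + 1) ≤
              6 * La * (p (pt b x (-(i : ℤ))) i * p (pt b x 1) j) := by linarith
          have b4 := mul_le_mul_of_nonneg_right b3 u0
          linarith
      _ = 6 * La * ((∑ i ∈ range K, p (pt b x (-(i : ℤ))) i *
            (WW b e (pt b x (-(i : ℤ))) i + 1)) * (∑ j ∈ range K, p (pt b x 1) j) +
            (∑ i ∈ range K, p (pt b x (-(i : ℤ))) i) *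
              ∑ j ∈ range K, p (pt b x 1) j * (WW b e (pt b x 1) j + 1)) := by
          rw [sum_mul_sum, sum_mul_sum, ← sum_add_distrib, mul_sum]
          refine sum_congr rfl fun i _ => ?_
          rw [← sum_add_distrib, mul_sum]
      _ ≤ _ := by
          have c1 := mul_le_mul_of_nonneg_left s2 n1
          have c2 := mul_le_mul_of_nonneg_right s1 n2
          have c3 := mul_le_mul_of_nonneg_left (add_le_add c1 c2) h.La0
          linarith
  refine (sum_le_sum fun x _ => pw x).trans ?_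
  rw [← mul_sum, sum_add_distrib]
  have := mul_le_mul_of_nonneg_left (add_le_add g1 g2) h.La0
  linarith

theorem reidx (h : Dat b p B c w e S La F) (J : Finset ((ℤ × ℤ) × ℕ)) :
    ∃ K, ∑ m ∈ J, p m.1 m.2 * (WW b e m.1 m.2 + 1) * ∑ i ∈ range m.2, w (pt b m.1 i) ^ 2 ≤
      ∑ x ∈ S, ∑ i ∈ range K, ∑ j ∈ range K, w x ^ 2 * (p (pt b x (-(i : ℤ))) (i + j + 1) *
        ((WW b e (pt b x (-(i : ℤ))) i + 1) + (WW b e (pt b x 1) j + 1))) := by
  refine ⟨J.sup fun m => m.2, ?_⟩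
  set K := J.sup fun m => m.2 with hK
  have := sum_inj (J.sigma fun m => range m.2) (S ×ˢ range K ×ˢ range K)
    (fun q => (pt b q.1.1 q.2, q.2, q.1.2 - q.2 - 1))
    (f := fun q => p q.1.1 q.1.2 * (WW b e q.1.1 q.1.2 + 1) * w (pt b q.1.1 q.2) ^ 2)
    (h := fun r => w r.1 ^ 2 * (p (pt b r.1 (-(r.2.1 : ℤ))) (r.2.1 + r.2.2 + 1) *
        ((WW b e (pt b r.1 (-(r.2.1 : ℤ))) r.2.1 + 1) + (WW b e (pt b r.1 1) r.2.2 + 1))))
    ?_ ?_ ?_ ?_
  · rw [sum_sigma, sum_product] at this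
    simp only [sum_product] at this
    simpa only [mul_sum] using this
  · rintro ⟨⟨z, k⟩, i⟩ hq h0
    obtain ⟨h1, h2⟩ := mem_sigma.1 hq
    have h3 : k ≤ K := le_sup (f := fun m : (ℤ × ℤ) × ℕ => m.2) h1
    have h4 : i < k := mem_range.1 h2
    refine mem_product.2 ⟨?_, mem_product.2 ⟨mem_range.2 (h4.trans_le h3), mem_range.2 ?_⟩⟩
    · by_contra cc
      exact h0 (by simp only [h.ws _ cc]; simp)
    · show k - i - 1 < K
      omega
  · rintro ⟨⟨z, k⟩, i⟩ hq ⟨⟨z', k'⟩, i'⟩ hq' _ _ hh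
    have h4 : i < k := mem_range.1 (mem_sigma.1 hq).2
    have h4' : i' < k' := mem_range.1 (mem_sigma.1 hq').2
    simp only [Prod.mk.injEq] at hh
    obtain ⟨h1, rfl, h3⟩ := hh
    have e1 : z = z' := add_right_cancel h1
    have e2 : k = k' := by omega
    subst e1 e2
    rfl
  · rintro ⟨⟨z, k⟩, i⟩ hq _
    have h4 : i < k := mem_range.1 (mem_sigma.1 hq).2
    obtain ⟨j, rfl⟩ : ∃ j, k = i + (1 + j) := ⟨k - i - 1, by omega⟩
    simp only [ptpt, add_neg_cancel, pt0, show i + (1 + j) - i - 1 = j by omega,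
      show i + j + 1 = i + (1 + j) by omega]
    have e1 : WW b e z (i + (1 + j)) ≤ WW b e z i + 1 + WW b e (pt b z (i + 1)) j := by
      rw [WW_add, WW_add, ptpt]
      have := WW_le h (pt b z i) 1
      simp only [Nat.cast_one] at this ⊢
      linarith
    have e2 := mul_le_mul_of_nonneg_left e1
      (mul_nonneg (sq_nonneg (w (pt b z i))) (h.li.nn z (i + (1 + j))))
    linarith
  · intro r _
    exact mul_nonneg (sq_nonneg _) (mul_nonneg (h.li.nn _ _)
      (add_nonneg (add_nonneg (WW_nn h _ _) zero_le_one) (add_nonneg (WW_nn h _ _) zero_le_one)))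

end DiagA

theorem diag_row : DiagStmt := by
  refine ⟨16 * 128 ^ 4 + 48, by positivity, fun b p B c w e S La F h J => ?_⟩
  obtain ⟨K, hK⟩ := DiagA.reidx h J
  refine hK.trans ?_
  have h1 := mul_le_mul_of_nonneg_left (DiagA.halfD h K) h.La0
  have h2 := mul_le_mul_of_nonneg_left (DiagA.halfU h K) h.La0
  have h3 := mul_le_mul_of_nonneg_left (DiagA.cpart h K) h.La0
  have F0 : 0 ≤ F := by simpa using h.fm ∅
  have a1 : 0 ≤ La ^ 2 * F := mul_nonneg (sq_nonneg _) F0
  have a2 : 0 ≤ La * ∑ z ∈ S, w z := mul_nonneg h.La0 (sum_nonneg fun z _ => (h.wb z).1)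
  refine le_trans ?_ (le_trans (add_le_add (add_le_add h1 h2) h3) (by linarith))
  rw [← mul_add, ← mul_add, ← sum_add_distrib, ← sum_add_distrib, mul_sum]
  refine sum_le_sum fun x _ => ?_
  simp only [sum_mul, mul_sum]
  rw [sum_comm (f := fun j i : ℕ => w x * B x * (p (pt b x (-(i : ℤ))) (i + j + 1) *
    (WW b e (pt b x 1) j + 1))), ← sum_add_distrib, ← sum_add_distrib, mul_sum]
  refine sum_le_sum fun i _ => ?_
  rw [← sum_add_distrib, ← sum_add_distrib, mul_sum]
  refine sum_le_sum fun j _ => ?_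
  have b1 : w x ^ 2 ≤ La * (w x * B x + w x * c x) := by
    have := mul_le_mul_of_nonneg_left (h.wb x).2 (h.wb x).1
    linarith
  have b2 := mul_le_mul_of_nonneg_right b1 (mul_nonneg (h.li.nn (pt b x (-(i : ℤ))) (i + j + 1))
    (add_nonneg (add_nonneg (DiagA.WW_nn h (pt b x (-(i : ℤ))) i) zero_le_one)
      (add_nonneg (DiagA.WW_nn h (pt b x 1) j) zero_le_one)))
  linarith

end Pool.Agent.MP_151d89_pr.H34
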