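import Pool.Agent.MP_151d89_pr.H34.Spec
import Pool.Agent.MP_151d89_pr.H30W.FM

/-!
Row FM of the energy block.
-/

set_option autoImplicit false
open MeasureTheory Finset

namespace Pool.Agent.MP_151d89_pr.H34
open Pool.Agent.MP_151d89_pr.H82 Pool.Agent.MP_151d89_pr.H33 Pool.Agent.MP_151d89_pr.H67
open Pool.Agent.MP_151d89_pr.H30 Pool.Agent.MP_151d89_pr.H27 Pool.Agent.MP_151d89_pr.H30W

theorem fm_row : FMStmt := by
  refine ⟨400, by norm_num, fun μ hμ hN R φ T D hR h0 hs hT hD b J K => ?_⟩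
  refine FMC.core hμ hN hR h0 (fun z h => (not_le.1 fun h' => h (hs z h')).le) hT
    (fun b z K => le_trans (mul_le_mul_of_nonneg_left ?_ (abs_nonneg _)) (hD b z (K + 1))) b J K
  change _ ≤ FMC.F μ b (K + 1) z
  unfold FMC.E' FMC.F
  rw [sum_range_succ]
  refine le_add_of_le_of_nonneg (sum_le_sum fun i _ => ?_) (sum_nonneg fun _ _ => FMC.P0 _ _ _)
  rw [sum_range_succ']
  exact le_add_of_nonneg_right (FMC.P0 _ _ _)

end Pool.Agent.MP_151d89_pr.H34
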