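import Pool.Agent.MP_151d89_pr.H34.Spec

/-!
The off diagonal terms of the tower energy.
-/

set_option autoImplicit false
open Finset

namespace Pool.Agent.MP_151d89_pr.H34
open Pool.Agent.MP_151d89_pr.H30 (pt dir)
open Classical

namespace OffA

theorem ptpt (b : Bool) (x : ℤ × ℤ) (u v : ℤ) : pt b (pt b x u) v = pt b x (u + v) := by
  simp only [pt, add_smul, add_assoc]

theorem pt0 (b : Bool) (x : ℤ × ℤ) : pt b x 0 = x := by simp [pt]

theorem ptinj {b : Bool} {x y : ℤ × ℤ} {u : ℤ} (h : pt b x u = pt b y u) : x = y :=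
  add_right_cancel h

theorem inj_le {α β : Type} (s : Finset α) (t : Finset β) (g : α → β) (f : α → ℝ) (h : β → ℝ)
    (hg : Set.InjOn g s) (hm : ∀ a ∈ s, g a ∈ t) (hh : ∀ y ∈ t, 0 ≤ h y)
    (hf : ∀ a ∈ s, f a ≤ h (g a)) : ∑ a ∈ s, f a ≤ ∑ y ∈ t, h y := by
  calc ∑ a ∈ s, f a ≤ ∑ a ∈ s, h (g a) := sum_le_sum hf
    _ = ∑ y ∈ s.image g, h y := (sum_image hg).symm
    _ ≤ ∑ y ∈ t, h y := by
      refine sum_le_sum_of_subset_of_nonneg (fun y hy => ?_) fun y hy _ => hh y hy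
      obtain ⟨a, ha, rfl⟩ := mem_image.1 hy
      exact hm a ha

theorem split (b : Bool) (e : ℤ × ℤ → ℝ) (z : ℤ × ℤ) (i j : ℕ) :
    WW b e z (i + j + 1) = WW b e z i + e (pt b z i) + WW b e (pt b z (i + 1)) j := by
  unfold WW
  rw [show i + j + 1 = (i + 1) + j by ring, sum_range_add, sum_range_succ]
  congr 1
  refine sum_congr rfl fun a _ => ?_
  rw [ptpt]
  push_cast
  rfl

theorem WW_nn (b : Bool) {e : ℤ × ℤ → ℝ} (he : ∀ z, 0 ≤ e z) (z : ℤ × ℤ) (k : ℕ) :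
    0 ≤ WW b e z k := sum_nonneg fun _ _ => he _

variable {b : Bool} {p : ℤ × ℤ → ℕ → ℝ} {B c w e : ℤ × ℤ → ℝ} {S : Finset (ℤ × ℤ)} {La F : ℝ}

theorem out2 (h : Line b p B c) (z : ℤ × ℤ) (K : ℕ) : ∑ j ∈ range K, p z j ≤ 2 := by
  rcases K with _ | K
  · simp
  · rw [sum_range_succ', h.p0]
    linarith [(h.oi z K).1]

theorem in2 (h : Line b p B c) (z : ℤ × ℤ) (K : ℕ) :
    ∑ i ∈ range K, p (pt b z (-(i : ℤ))) i ≤ 2 := by
  rcases K with _ | K
  · simp
  · rw [sum_range_succ', h.p0]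
    have h1 := (h.oi (pt b z (-1)) K).2
    have h2 : ∑ i ∈ range K, p (pt b z (-((i + 1 : ℕ) : ℤ))) (i + 1) =
        ∑ i ∈ range K, p (pt b (pt b z (-1)) (-(i : ℤ))) (i + 1) := by
      refine sum_congr rfl fun i _ => ?_
      rw [ptpt]
      congr 2
      push_cast
      ring
    linarith

theorem dk3 (h : Line b p B c) (z : ℤ × ℤ) (i j : ℕ) :
    (B (pt b z i) + c (pt b z i)) * p z (i + j + 1) ≤ 3 * (p z i * p (pt b z (i + 1)) j) := by
  have h1 := h.dkB z i j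
  have h2 := h.dkc z i j
  linarith

/-- the weight of three consecutive towers -/
noncomputable def G (b : Bool) (p : ℤ × ℤ → ℕ → ℝ) (e : ℤ × ℤ → ℝ) (x : ℤ × ℤ) (i a j : ℕ) : ℝ :=
  p (pt b x (-(i : ℤ))) i * p (pt b x 1) a * p (pt b x (a + 2)) j *
    (WW b e (pt b x (-(i : ℤ))) i + WW b e (pt b x 1) a + WW b e (pt b x (a + 2)) j + 3)

theorem point (h : Dat b p B c w e S La F) (z : ℤ × ℤ) (i a j : ℕ) :
    p z (i + a + j + 2) * (WW b e z (i + a + j + 2) + 1) *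
        (w (pt b z i) * w (pt b z ((i + a + 1 : ℕ) : ℤ))) ≤
      9 * La ^ 2 * G b p e (pt b z i) i a j := by
  have e0 : pt b (pt b z i) (-(i : ℤ)) = z := by rw [ptpt, add_neg_cancel, pt0]
  have e1 : pt b (pt b z i) 1 = pt b z (i + 1) := ptpt _ _ _ _
  have e2 : pt b (pt b z i) (a + 2) = pt b (pt b z (i + 1)) (a + 1) := by
    rw [ptpt, ptpt]; congr 1; ring
  have e3 : pt b z ((i + a + 1 : ℕ) : ℤ) = pt b (pt b z (i + 1)) a := by
    rw [ptpt]; congr 1; push_cast; ring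
  have e4 : i + a + j + 2 = i + (a + j + 1) + 1 := by ring
  unfold G
  rw [e0, e1, e2, e3, e4]
  set z1 := pt b z (i + 1) with hz1
  set z2 := pt b z1 (a + 1) with hz2
  have d1 := dk3 h.li z i (a + j + 1)
  have d2 := dk3 h.li z1 a j
  rw [← hz1] at d1
  rw [← hz2] at d2
  have s1 := split b e z i (a + j + 1)
  have s2 := split b e z1 a j
  rw [← hz1] at s1
  rw [← hz2] at s2
  have n0 := h.li.nn z (i + (a + j + 1) + 1)
  have n1 := h.li.nn z i
  have n2 := h.li.nn z1 a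
  have n3 := h.li.nn z2 j
  have n4 := h.li.nn z1 (a + j + 1)
  have w1 := h.wb (pt b z i)
  have w2 := h.wb (pt b z1 a)
  have hL := h.La0
  have l1 : 0 ≤ B (pt b z i) + c (pt b z i) := add_nonneg (h.li.Bn _) (h.li.cn _).1
  have l2 : 0 ≤ B (pt b z1 a) + c (pt b z1 a) := add_nonneg (h.li.Bn _) (h.li.cn _).1
  set l := B (pt b z i) + c (pt b z i)
  set l' := B (pt b z1 a) + c (pt b z1 a)
  have k1 : w (pt b z i) * w (pt b z1 a) ≤ La * l * (La * l') :=
    mul_le_mul w1.2 w2.2 w2.1 (mul_nonneg hL l1)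
  have k2 : p z (i + (a + j + 1) + 1) * (w (pt b z i) * w (pt b z1 a)) ≤
      9 * La ^ 2 * (p z i * p z1 a * p z2 j) := by
    calc p z (i + (a + j + 1) + 1) * (w (pt b z i) * w (pt b z1 a))
        ≤ p z (i + (a + j + 1) + 1) * (La * l * (La * l')) := mul_le_mul_of_nonneg_left k1 n0
      _ = La ^ 2 * l' * (l * p z (i + (a + j + 1) + 1)) := by ring
      _ ≤ La ^ 2 * l' * (3 * (p z i * p z1 (a + j + 1))) :=
        mul_le_mul_of_nonneg_left d1 (by positivity)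
      _ = La ^ 2 * (3 * p z i) * (l' * p z1 (a + j + 1)) := by ring
      _ ≤ La ^ 2 * (3 * p z i) * (3 * (p z1 a * p z2 j)) :=
        mul_le_mul_of_nonneg_left d2 (by positivity)
      _ = _ := by ring
  have k3 : WW b e z (i + (a + j + 1) + 1) + 1 ≤
      WW b e z i + WW b e z1 a + WW b e z2 j + 3 := by
    linarith [(h.eb (pt b z i)).2, (h.eb (pt b z1 a)).2]
  have k4 : 0 ≤ WW b e z (i + (a + j + 1) + 1) + 1 := by
    linarith [WW_nn b (fun y => (h.eb y).1) z (i + (a + j + 1) + 1)]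
  calc _ = p z (i + (a + j + 1) + 1) * (w (pt b z i) * w (pt b z1 a)) *
        (WW b e z (i + (a + j + 1) + 1) + 1) := by ring
    _ ≤ 9 * La ^ 2 * (p z i * p z1 a * p z2 j) *
        (WW b e z i + WW b e z1 a + WW b e z2 j + 3) :=
      mul_le_mul k2 k3 k4 (by positivity)
    _ = _ := by ring

theorem G_nn (h : Dat b p B c w e S La F) (x : ℤ × ℤ) (i a j : ℕ) : 0 ≤ G b p e x i a j := by
  have he := WW_nn b fun y => (h.eb y).1
  have := h.li.nn
  unfold G
  refine mul_nonneg (mul_nonneg (mul_nonneg (this _ _) (this _ _)) (this _ _)) ?_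
  linarith [he (pt b x (-(i : ℤ))) i, he (pt b x 1) a, he (pt b x (a + 2)) j]

/-- the first moment bound along an injective family of towers -/
theorem fm' (h : Dat b p B c w e S La F) (T : Finset (ℤ × ℤ)) (K : ℕ) (u : ℕ → ℤ) :
    ∑ x ∈ T, ∑ i ∈ range K, p (pt b x (u i)) i * WW b e (pt b x (u i)) i ≤ F := by
  rw [← sum_product']
  refine (inj_le (T ×ˢ range K) ((T ×ˢ range K).image fun y => (pt b y.1 (u y.2), y.2))
    (fun y => (pt b y.1 (u y.2), y.2)) _ (fun m => p m.1 m.2 * WW b e m.1 m.2) ?_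
    (fun a ha => mem_image_of_mem _ ha) ?_ fun a _ => le_rfl).trans (h.fm _)
  · rintro ⟨x, i⟩ _ ⟨y, i'⟩ _ hxy
    simp only [Prod.mk.injEq] at hxy
    obtain ⟨h1, rfl⟩ := hxy
    rw [ptinj h1]
  · exact fun m _ => mul_nonneg (h.li.nn _ _) (WW_nn b (fun y => (h.eb y).1) _ _)

theorem third (h : Dat b p B c w e S La F) (K : ℕ) :
    ∑ x ∈ S, ∑ a ∈ range K, p (pt b x 1) a *
      ∑ j ∈ range K, p (pt b x (a + 2)) j * WW b e (pt b x (a + 2)) j ≤ 2 * F := by
  set H : ℤ × ℤ → ℝ := fun y => ∑ j ∈ range K, p y j * WW b e y j with hH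
  have H0 : ∀ y, 0 ≤ H y := fun y => sum_nonneg fun j _ =>
    mul_nonneg (h.li.nn _ _) (WW_nn b (fun y => (h.eb y).1) _ _)
  set T := (S ×ˢ range K).image fun y : (ℤ × ℤ) × ℕ => pt b y.1 (y.2 + 2) with hT
  have h1 : ∑ x ∈ S, ∑ a ∈ range K, p (pt b x 1) a * H (pt b x (a + 2)) ≤
      ∑ y ∈ T, ∑ a ∈ range K, p (pt b (pt b y (-1)) (-(a : ℤ))) a * H y := by
    rw [← sum_product', ← sum_product']
    refine inj_le _ _ (fun y => (pt b y.1 (y.2 + 2), y.2)) _ _ ?_ ?_ ?_ ?_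
    · rintro ⟨x, i⟩ _ ⟨y, i'⟩ _ hxy
      simp only [Prod.mk.injEq] at hxy
      obtain ⟨h1, rfl⟩ := hxy
      rw [ptinj h1]
    · intro a ha
      exact mem_product.2 ⟨mem_image_of_mem _ ha, (mem_product.1 ha).2⟩
    · exact fun y _ => mul_nonneg (h.li.nn _ _) (H0 _)
    · intro a _
      refine le_of_eq ?_
      simp only [ptpt]
      congr 3
      ring
  have h2 : ∑ y ∈ T, ∑ a ∈ range K, p (pt b (pt b y (-1)) (-(a : ℤ))) a * H y ≤
      ∑ y ∈ T, 2 * H y := by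
    refine sum_le_sum fun y _ => ?_
    rw [← sum_mul]
    exact mul_le_mul_of_nonneg_right (in2 h.li _ K) (H0 y)
  have h3 := fm' h T K fun _ => 0
  simp only [pt0] at h3
  rw [← mul_sum] at h2
  linarith

theorem sumG (h : Dat b p B c w e S La F) (K : ℕ) :
    ∑ x ∈ S, ∑ i ∈ range K, ∑ a ∈ range K, ∑ j ∈ range K, G b p e x i a j ≤
      24 * (F + S.card) := by
  have hp := h.li.nn
  have he := WW_nn b fun y => (h.eb y).1
  have key : ∀ x, ∑ i ∈ range K, ∑ a ∈ range K, ∑ j ∈ range K, G b p e x i a j ≤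
      4 * ∑ i ∈ range K, p (pt b x (-(i : ℤ))) i * WW b e (pt b x (-(i : ℤ))) i +
      4 * ∑ a ∈ range K, p (pt b x 1) a * WW b e (pt b x 1) a +
      2 * ∑ a ∈ range K, p (pt b x 1) a *
        ∑ j ∈ range K, p (pt b x (a + 2)) j * WW b e (pt b x (a + 2)) j + 24 := by
    intro x
    set P1 : ℕ → ℝ := fun i => p (pt b x (-(i : ℤ))) i with hP1
    set W1 : ℕ → ℝ := fun i => WW b e (pt b x (-(i : ℤ))) i with hW1
    set P2 : ℕ → ℝ := fun a => p (pt b x 1) a with hP2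
    set W2 : ℕ → ℝ := fun a => WW b e (pt b x 1) a with hW2
    set H : ℕ → ℝ := fun a => ∑ j ∈ range K, p (pt b x (a + 2)) j * WW b e (pt b x (a + 2)) j
      with hH
    have H0 : ∀ a, 0 ≤ H a := fun a => sum_nonneg fun j _ => mul_nonneg (hp _ _) (he _ _)
    have q1 : ∀ i, 0 ≤ P1 i := fun i => hp _ _
    have q2 : ∀ i, 0 ≤ P2 i := fun i => hp _ _
    have r1 : ∀ i, 0 ≤ W1 i := fun i => he _ _
    have r2 : ∀ i, 0 ≤ W2 i := fun i => he _ _
    have s1 : ∑ i ∈ range K, P1 i ≤ 2 := in2 h.li x K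
    have s2 : ∑ i ∈ range K, P2 i ≤ 2 := out2 h.li _ K
    have a1 : ∀ i a, ∑ j ∈ range K, G b p e x i a j ≤
        P1 i * P2 a * (2 * (W1 i + W2 a + 3) + H a) := by
      intro i a
      have o := out2 h.li (pt b x (a + 2)) K
      have : ∑ j ∈ range K, G b p e x i a j = P1 i * P2 a *
          ((∑ j ∈ range K, p (pt b x (a + 2)) j) * (W1 i + W2 a + 3) + H a) := by
        simp only [hH, sum_mul, ← sum_add_distrib, mul_sum]
        refine sum_congr rfl fun j _ => ?_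
        simp only [G, hP1, hP2, hW1, hW2]
        ring
      rw [this]
      refine mul_le_mul_of_nonneg_left ?_ (mul_nonneg (q1 i) (q2 a))
      have : 0 ≤ W1 i + W2 a + 3 := by linarith [r1 i, r2 a]
      nlinarith
    have a2 : ∑ i ∈ range K, ∑ a ∈ range K, P1 i * P2 a * (2 * (W1 i + W2 a + 3) + H a) =
        2 * (∑ i ∈ range K, P1 i * W1 i) * (∑ a ∈ range K, P2 a) +
        2 * (∑ i ∈ range K, P1 i) * (∑ a ∈ range K, P2 a * W2 a) +
        (∑ i ∈ range K, P1 i) * (∑ a ∈ range K, P2 a * H a) +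
        6 * ((∑ i ∈ range K, P1 i) * (∑ a ∈ range K, P2 a)) := by
      simp only [mul_assoc, sum_mul_sum]
      simp only [mul_sum, ← sum_add_distrib]
      refine sum_congr rfl fun i _ => sum_congr rfl fun a _ => ?_
      ring
    have t1 : 0 ≤ ∑ i ∈ range K, P1 i * W1 i := sum_nonneg fun i _ => mul_nonneg (q1 i) (r1 i)
    have t2 : 0 ≤ ∑ a ∈ range K, P2 a * W2 a := sum_nonneg fun i _ => mul_nonneg (q2 i) (r2 i)
    have t3 : 0 ≤ ∑ a ∈ range K, P2 a * H a := sum_nonneg fun i _ => mul_nonneg (q2 i) (H0 i)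
    have t4 : 0 ≤ ∑ i ∈ range K, P1 i := sum_nonneg fun i _ => q1 i
    have t5 : 0 ≤ ∑ i ∈ range K, P2 i := sum_nonneg fun i _ => q2 i
    refine (sum_le_sum fun i _ => sum_le_sum fun a _ => a1 i a).trans ?_
    rw [a2]
    have u1 := mul_le_mul_of_nonneg_left s2 t1
    have u2 := mul_le_mul_of_nonneg_right s1 t2
    have u3 := mul_le_mul_of_nonneg_right s1 t3
    have u4 := mul_le_mul s1 s2 t5 (by norm_num)
    linarith
  refine (sum_le_sum fun x _ => key x).trans ?_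
  simp only [sum_add_distrib, ← mul_sum, sum_const, nsmul_eq_mul]
  have f1 := fm' h S K fun i => -(i : ℤ)
  have f2 := fm' h S K fun _ => 1
  have f3 := third h K
  have F0 : 0 ≤ F := by simpa using h.fm ∅
  linarith

end OffA
open OffA

/-- Row Off -/
theorem off_row : OffStmt := by
  refine ⟨216, by norm_num, fun b p B c w e S La F h J => ?_⟩
  set K := J.sup (fun m => m.2) with hK
  have h1 : ∑ m ∈ J, p m.1 m.2 * (WW b e m.1 m.2 + 1) *
      ∑ i' ∈ range m.2, ∑ i ∈ range i', w (pt b m.1 i) * w (pt b m.1 i') =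
      ∑ y ∈ ((J.sigma fun m => range m.2).sigma fun y => range y.2).filter
          (fun y => pt b y.1.1.1 y.2 ∈ S),
        p y.1.1.1 y.1.1.2 * (WW b e y.1.1.1 y.1.1.2 + 1) *
          (w (pt b y.1.1.1 y.2) * w (pt b y.1.1.1 y.1.2)) := by
    rw [sum_filter_of_ne, sum_sigma, sum_sigma]
    · simp only [mul_sum]
    · intro y _ hy
      by_contra hn
      exact hy (by rw [h.ws _ hn]; ring)
  have h2 : ∑ y ∈ S ×ˢ range K ×ˢ range K ×ˢ range K,
      9 * La ^ 2 * G b p e y.1 y.2.1 y.2.2.1 y.2.2.2 ≤ 216 * (La ^ 2 * (F + S.card)) := by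
    rw [← mul_sum]
    simp only [sum_product]
    calc _ ≤ 9 * La ^ 2 * (24 * (F + S.card)) :=
          mul_le_mul_of_nonneg_left (sumG h K) (by positivity)
      _ = _ := by ring
  rw [h1]
  refine le_trans (inj_le _ _
    (fun y => (pt b y.1.1.1 y.2, y.2, y.1.2 - y.2 - 1, y.1.1.2 - y.1.2 - 1)) _ _ ?_ ?_ ?_ ?_) h2
  · rintro ⟨⟨⟨z, k⟩, i'⟩, i⟩ hy ⟨⟨⟨z', k'⟩, j'⟩, j⟩ hy' hxy
    simp only [coe_filter, mem_sigma, mem_range, Set.mem_ofPred_eq] at hy hy'
    simp only [Prod.mk.injEq] at hxy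
    obtain ⟨a1, rfl, a3, a4⟩ := hxy
    obtain rfl := ptinj a1
    obtain rfl : i' = j' := by omega
    obtain rfl : k = k' := by omega
    rfl
  · rintro ⟨⟨⟨z, k⟩, i'⟩, i⟩ hy
    simp only [mem_filter, mem_sigma, mem_range] at hy
    have : k ≤ K := le_sup (f := fun m : (ℤ × ℤ) × ℕ => m.2) hy.1.1.1
    simp only [mem_product, mem_range]
    refine ⟨hy.2, ?_, ?_, ?_⟩ <;> omega
  · exact fun y _ => mul_nonneg (by positivity) (G_nn h _ _ _ _)
  · rintro ⟨⟨⟨z, k⟩, i'⟩, i⟩ hy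
    simp only [mem_filter, mem_sigma, mem_range] at hy
    obtain ⟨a, rfl⟩ : ∃ a, i' = i + a + 1 := ⟨i' - i - 1, by omega⟩
    obtain ⟨j, rfl⟩ : ∃ j, k = i + a + j + 2 := ⟨k - (i + a + 1) - 1, by omega⟩
    have e1 : i + a + 1 - i - 1 = a := by omega
    have e2 : i + a + j + 2 - (i + a + 1) - 1 = j := by omega
    simp only [e1, e2]
    exact point h z i a j

end Pool.Agent.MP_151d89_pr.H34
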