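import Pool.Agent.MP_151d89_pr.H34.Spec
import Pool.Agent.MP_151d89_pr.H45.Haz

/-!
One tower per first site and one tower per last site.
-/

set_option autoImplicit false
open MeasureTheory Finset

namespace Pool.Agent.MP_151d89_pr.H34
open Pool.Agent.MP_151d89_pr.H82 Pool.Agent.MP_151d89_pr.H33 Pool.Agent.MP_151d89_pr.H67
open Pool.Agent.MP_151d89_pr.H30

theorem outIn_row : OutInStmt := by
  intro μ hμ b z K
  have := hμ.1
  refine ⟨(H45.sum_start hμ b z (range K)).trans measureReal_le_one, ?_⟩
  refine le_trans (le_of_eq ?_) ((H45.sum_end hμ b z (range K)).trans measureReal_le_one)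
  exact sum_congr rfl fun i _ => H45.p_rev hμ (b, pt b z (-(i : ℤ)), i)

end Pool.Agent.MP_151d89_pr.H34
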