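import Pool.Agent.MP_151d89_pr.H34.Spec
import Pool.Agent.MP_151d89_pr.H67E.Spec

/-!
The oscillation energy from the rows along lines.
-/

set_option autoImplicit false
open MeasureTheory Finset

namespace Pool.Agent.MP_151d89_pr.H34
open Pool.Agent.MP_151d89_pr.H82 Pool.Agent.MP_151d89_pr.H33 Pool.Agent.MP_151d89_pr.H67
open Pool.Agent.MP_151d89_pr.H30 Pool.Agent.MP_151d89_pr.H27 Pool.Agent.MP_151d89_pr.H30W
open Classical

namespace QA

theorem pp_nn (μ : Measure Conf) (b : Bool) (z : ℤ × ℤ) (k : ℕ) : 0 ≤ pp μ b z k := by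
  cases k
  · exact zero_le_one
  · exact measureReal_nonneg

theorem sq_sum (a : ℕ → ℝ) (k : ℕ) : (∑ i ∈ range k, a i) ^ 2 =
    ∑ i ∈ range k, a i ^ 2 + 2 * ∑ i' ∈ range k, ∑ i ∈ range i', a i * a i' := by
  induction k with
  | zero => simp
  | succ k ih =>
    rw [sum_range_succ, sum_range_succ, sum_range_succ, ← sum_mul, add_sq, ih]
    ring

theorem osc (φ : ℤ × ℤ → ℝ) (b : Bool) (z : ℤ × ℤ) (s d : ℕ) :
    |φ (pt b z (s + d : ℕ)) - φ (pt b z s)| ≤ ∑ i ∈ Ico s (s + d), ww φ b (pt b z i) := by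
  induction d with
  | zero => simp
  | succ d ih =>
    rw [← add_assoc, sum_Ico_succ_top (Nat.le_add_right s d)]
    refine (abs_sub_le _ (φ (pt b z (s + d : ℕ))) _).trans ?_
    rw [ww, H45.pt_add]
    push_cast at ih ⊢
    linarith

theorem osc' (φ : ℤ × ℤ → ℝ) (b : Bool) (z : ℤ × ℤ) {s t k : ℕ} (hs : s ≤ k) (ht : t ≤ k) :
    |φ (pt b z t) - φ (pt b z s)| ≤ WW b (ww φ b) z k := by
  have key : ∀ {s t : ℕ}, s ≤ t → t ≤ k →
      |φ (pt b z t) - φ (pt b z s)| ≤ WW b (ww φ b) z k := by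
    intro s t h1 h2
    obtain ⟨d, rfl⟩ := Nat.exists_eq_add_of_le h1
    exact (osc φ b z s d).trans (sum_le_sum_of_subset_of_nonneg
      (fun i hi => mem_range.2 ((mem_Ico.1 hi).2.trans_le h2)) fun _ _ _ => abs_nonneg _)
  rcases le_total s t with h | h
  · exact key h ht
  · rw [abs_sub_comm]; exact key h hs

/-- the inequalities along lines for a weight below both mean leg numbers -/
theorem line (hO : OutInStmt) (hc : DKcStmt) (hB : DKBStmt) (hD : CorDStmt) (hU : CorUStmt)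
    {μ : Measure Conf} (hμ : Gibbs μ) (hT : Triv μ) (b : Bool) {B : ℤ × ℤ → ℝ}
    (h0 : ∀ z, 0 ≤ B z) (h1 : ∀ z, B z ≤ al μ (!b) z) (h2 : ∀ z, B z ≤ H45.al' μ (!b) z) :
    Line b (pp μ b) B (cc μ b) := by
  have := hμ.1
  refine ⟨fun _ => rfl, pp_nn μ b, h0, fun z => ⟨add_nonneg measureReal_nonneg measureReal_nonneg,
    ?_⟩, hO μ hμ b, hc μ hμ hT b, fun z i j => ?_, fun z i l K h => ?_, fun x j l K h => ?_⟩
  · have a1 : μ.real {f | Lo b z f} ≤ 1 := measureReal_le_one
    have a2 : μ.real {f | Hi b z f} ≤ 1 := measureReal_le_one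
    unfold cc; linarith
  · exact (mul_le_mul_of_nonneg_right (h1 _) (pp_nn _ _ _ _)).trans (hB μ hμ hT b (!b) z i j)
  · exact (mul_le_mul_of_nonneg_right (sub_le_sub_right (h1 _) _)
      (sum_nonneg fun _ _ => pp_nn _ _ _ _)).trans (hD μ hμ hT b z i l K h)
  · exact (mul_le_mul_of_nonneg_right (sub_le_sub_right (h2 _) _)
      (sum_nonneg fun _ _ => pp_nn _ _ _ _)).trans (hU μ hμ hT b x j l K h)

/-- the tower energy -/
theorem tt (hO : OffStmt) (hD : DiagStmt) : ∃ C : ℝ, 0 ≤ C ∧ ∀ b p B c w e S La F,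
    Dat b p B c w e S La F → ∀ J, TT b p w e J ≤
      C * (La ^ 2 * (F + S.card) + La * ∑ z ∈ S, w z) := by
  obtain ⟨C1, c1, h1⟩ := hO
  obtain ⟨C2, c2, h2⟩ := hD
  refine ⟨2 * C1 + C2, by positivity, fun b p B c w e S La F h J => ?_⟩
  have a1 := h1 b p B c w e S La F h J
  have a2 := h2 b p B c w e S La F h J
  have a3 : 0 ≤ La * ∑ z ∈ S, w z := mul_nonneg h.La0 (sum_nonneg fun z _ => (h.wb z).1)
  have e1 : TT b p w e J = ∑ m ∈ J, p m.1 m.2 * (WW b e m.1 m.2 + 1) *
      ∑ i ∈ range m.2, w (pt b m.1 i) ^ 2 + 2 * ∑ m ∈ J, p m.1 m.2 * (WW b e m.1 m.2 + 1) *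
      ∑ i' ∈ range m.2, ∑ i ∈ range i', w (pt b m.1 i) * w (pt b m.1 i') := by
    rw [TT, mul_sum, ← sum_add_distrib]
    refine sum_congr rfl fun m _ => ?_
    rw [WW.eq_1 b w, sq_sum fun i => w (pt b m.1 i)]
    ring
  rw [e1]
  nlinarith [mul_nonneg c1 a3]

theorem sum_TT (n : ℕ) (g : Bool → ℤ × ℤ → ℕ → ℝ) :
    ∑ m ∈ H67E.TT n, g m.1 m.2.1 (m.2.2 + 1) = ∑ b : Bool,
      ∑ m ∈ (box 0 n ×ˢ range (2 * n + 1)).image fun m => (m.1, m.2 + 1), g b m.1 m.2 := by
  rw [H67E.TT, sum_product]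
  refine sum_congr rfl fun b _ => ?_
  rw [sum_image fun m _ m' _ e => Prod.ext (Prod.mk.inj e).1 (by simpa using (Prod.mk.inj e).2)]

end QA

open QA

theorem q_row (hO : OutInStmt) (hc : DKcStmt) (hB : DKBStmt) (hD : CorDStmt) (hU : CorUStmt)
    (hOff : OffStmt) (hDiag : DiagStmt) (hCov : CovStmt) : H67E.QStmt := by
  obtain ⟨C, c0, hC⟩ := tt hOff hDiag
  refine ⟨16 * C + 2, by positivity, fun μ φ U lam TV A h FM hF n => ?_⟩
  set e : ℤ × ℤ → ℝ := fun z => ind (z ∈ U) with he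
  have e0 : ∀ z, 0 ≤ e z ∧ e z ≤ 1 := fun z => ind_mem _
  have fm : ∀ b (J : Finset ((ℤ × ℤ) × ℕ)),
      ∑ m ∈ J, pp μ b m.1 m.2 * WW b e m.1 m.2 ≤ FM := fun b J => by
    obtain ⟨K, hK⟩ := hCov b (pp μ b) e U (pp_nn μ b) (fun z => (e0 z).1)
      (fun z hz => ind_neg hz) J
    refine hK.trans ((sum_le_sum fun z hz => ?_).trans (hF K b))
    rw [show e z = 1 from ind_pos hz, one_mul]
    exact le_rfl
  have F0 : 0 ≤ FM := by simpa using fm true ∅
  have T0 := h.tv0
  have l0 := h.lam0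
  have t1 : ∀ b J, TT b (pp μ b) (ww φ b) e J ≤
      C * (8 * (lam * TV + lam ^ 2 * (U.card + FM))) := fun b J => by
    have hd : Dat b (pp μ b) (A (!b)) (cc μ b) (ww φ b) e (U ∪ U.image fun z => z - dir b)
        (2 * lam) FM := by
      refine ⟨line hO hc hB hD hU h.gib h.tri b (h.A0 _) (h.A1 _) (h.A2 _), by positivity, e0,
        fun z => ⟨abs_nonneg _, (h.hw b z).trans ?_⟩, fun z hz => ?_, fm b⟩
      · have a1 : H67E.cc μ b (z - dir b) = μ.real {f | Hi b z f} := by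
          unfold H67E.cc
          simp only [← H45.hi_iff, sub_add_cancel]
        have a2 := mul_nonneg l0 (h.A0 (!b) z)
        rw [a1]
        unfold cc H67E.cc
        nlinarith
      · rw [mem_union, not_or] at hz
        have a1 : φ z = 0 := by_contra fun a => hz.1 (h.supp z a)
        have a2 : φ (z + dir b) = 0 := by_contra fun a =>
          hz.2 (mem_image.2 ⟨_, h.supp _ a, add_sub_cancel_right _ _⟩)
        rw [ww, a1, a2, sub_self, abs_zero]
    refine (hC _ _ _ _ _ _ _ _ _ hd J).trans (mul_le_mul_of_nonneg_left ?_ c0)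
    have a1 : ((U ∪ U.image fun z => z - dir b).card : ℝ) ≤ U.card + U.card := by
      exact_mod_cast (card_union_le _ _).trans (Nat.add_le_add_left card_image_le _)
    have a2 := mul_le_mul_of_nonneg_left (h.tv b (U ∪ U.image fun z => z - dir b)) l0
    have a3 := mul_le_mul_of_nonneg_left a1 (sq_nonneg lam)
    have a4 := mul_nonneg (sq_nonneg lam) F0
    have a5 := mul_nonneg l0 T0
    change lam * ∑ z ∈ _, ww φ b z ≤ _ at a2
    nlinarith
  have q1 : H67E.QQ μ n φ ≤ 2 * (C * (8 * (lam * TV + lam ^ 2 * (U.card + FM)))) := by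
    calc _ ≤ ∑ m ∈ H67E.TT n, pp μ m.1 m.2.1 (m.2.2 + 1) * (WW m.1 e m.2.1 (m.2.2 + 1) + 1) *
          WW m.1 (ww φ m.1) m.2.1 (m.2.2 + 1) ^ 2 := by
          refine sum_le_sum fun m _ => ?_
          rw [mul_assoc]
          refine mul_le_mul_of_nonneg_left ?_ measureReal_nonneg
          refine le_trans ?_ (mul_le_mul_of_nonneg_right (le_add_of_nonneg_right zero_le_one)
            (sq_nonneg _))
          rw [WW.eq_1 m.1 e, sum_mul]
          refine sum_le_sum fun t ht => ?_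
          have ht' : t ≤ m.2.2 := Nat.lt_succ_iff.1 (mem_range.1 ht)
          have a0 := H67E.os_nonneg φ m ht'
          by_cases a : pt m.1 m.2.1 t ∈ U
          · rw [show e _ = 1 from ind_pos a, one_mul]
            obtain ⟨s, hs, es⟩ := H67E.ps_ex φ m
            refine pow_le_pow_left₀ a0 ?_ 2
            rw [H67E.os, es]
            exact (le_abs_self _).trans (osc' φ m.1 m.2.1 (by omega) (by omega))
          · have a1 : φ (pt m.1 m.2.1 t) = 0 := by_contra fun a' => a (h.supp _ a')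
            have a2 := H67E.ps_nonneg h.h0 m
            have a3 : H67E.os φ m t = 0 := by
              rw [H67E.os, a1] at a0 ⊢
              linarith
            rw [a3, show e _ = 0 from ind_neg a]
            simp
      _ ≤ _ := by
          rw [sum_TT n fun b z k => pp μ b z k * (WW b e z k + 1) * WW b (ww φ b) z k ^ 2,
            Fintype.sum_bool]
          linarith [t1 true ((box 0 n ×ˢ range (2 * n + 1)).image fun m => (m.1, m.2 + 1)),
            t1 false ((box 0 n ×ˢ range (2 * n + 1)).image fun m => (m.1, m.2 + 1)),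
            TT.eq_1 true (pp μ true) (ww φ true) e
              ((box 0 n ×ˢ range (2 * n + 1)).image fun m => (m.1, m.2 + 1)),
            TT.eq_1 false (pp μ false) (ww φ false) e
              ((box 0 n ×ˢ range (2 * n + 1)).image fun m => (m.1, m.2 + 1))]
  have q2 : H67E.LL μ n U ≤ 2 * FM := by
    have := sum_TT n fun b z k => pp μ b z k * WW b e z k
    rw [Fintype.sum_bool] at this
    refine le_trans (le_of_eq this) ?_
    linarith [fm true ((box 0 n ×ˢ range (2 * n + 1)).image fun m => (m.1, m.2 + 1)),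
      fm false ((box 0 n ×ˢ range (2 * n + 1)).image fun m => (m.1, m.2 + 1))]
  have a3 := mul_le_mul_of_nonneg_left q2 (sq_nonneg lam)
  have a4 := mul_nonneg (sq_nonneg lam) (Nat.cast_nonneg (α := ℝ) U.card)
  have a5 := mul_nonneg l0 T0
  unfold H67E.Bd
  nlinarith

end Pool.Agent.MP_151d89_pr.H34
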