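import Pool.Agent.MP_151d89_pr.H30W.Spec
import Pool.Agent.MP_151d89_pr.H45.Leg

/-!
The energy block: from the pinned correlation inequalities to the outcome of the Mermin-Wagner
argument. A tower is given by its first site z and its number k of sites; k = 0 is the empty tower.
-/

set_option autoImplicit false
open MeasureTheory Finset

namespace Pool.Agent.MP_151d89_pr.H34
open Pool.Agent.MP_151d89_pr.H82 Pool.Agent.MP_151d89_pr.H33 Pool.Agent.MP_151d89_pr.H67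
open Pool.Agent.MP_151d89_pr.H30 Pool.Agent.MP_151d89_pr.H27 Pool.Agent.MP_151d89_pr.H30W
open Classical

/-- probability of the tower with k sites from z; the empty tower has weight one -/
noncomputable def pp (μ : Measure Conf) (b : Bool) (z : ℤ × ℤ) : ℕ → ℝ
  | 0 => 1
  | l + 1 => μ.real {f | Av (-1) (b, z, l) f}

/-- probability of a descent on the two edges at z in direction b -/
noncomputable def cc (μ : Measure Conf) (b : Bool) (z : ℤ × ℤ) : ℝ :=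
  μ.real {f | Lo b z f} + μ.real {f | Hi b z f}

/-- the corner bound -/
noncomputable def rr (l : ℕ) : ℝ := (1 / 2) ^ (l / 16)

/-- towers that cover z with i < I sites before z and j < J sites after z -/
noncomputable def cov (b : Bool) (p : ℤ × ℤ → ℕ → ℝ) (z : ℤ × ℤ) (I J : ℕ) : ℝ :=
  ∑ i ∈ range I, ∑ j ∈ range J, p (pt b z (-(i : ℤ))) (i + j + 1)

/-- one tower per first site, one tower per last site -/
def OutIn (b : Bool) (p : ℤ × ℤ → ℕ → ℝ) : Prop :=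
  ∀ z K, ∑ j ∈ range K, p z (j + 1) ≤ 1 ∧ ∑ i ∈ range K, p (pt b z (-(i : ℤ))) (i + 1) ≤ 1

/-- splitting a tower at a site with weight c -/
def DK (b : Bool) (p : ℤ × ℤ → ℕ → ℝ) (c : ℤ × ℤ → ℝ) (κ : ℝ) : Prop :=
  ∀ z (i j : ℕ), c (pt b z i) * p z (i + j + 1) ≤ κ * (p z i * p (pt b z (i + 1)) j)

/-- the corner bound, towers from a fixed first site -/
def CorD (b : Bool) (p : ℤ × ℤ → ℕ → ℝ) (B : ℤ × ℤ → ℝ) : Prop :=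
  ∀ z (i l K : ℕ), l ≤ i → (B (pt b z i) - l) * ∑ j ∈ range K, p z (i + j + 1) ≤
    rr l * ∑ a ∈ range (l + 1), p z (i - a)

/-- the corner bound, towers with a fixed last site -/
def CorU (b : Bool) (p : ℤ × ℤ → ℕ → ℝ) (B : ℤ × ℤ → ℝ) : Prop :=
  ∀ x (j l K : ℕ), l ≤ j → (B x - l) * ∑ i ∈ range K, p (pt b x (-(i : ℤ))) (i + j + 1) ≤
    rr l * ∑ a ∈ range (l + 1), p (pt b x (a + 1)) (j - a)

/-- the inequalities along the lines of direction b -/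
structure Line (b : Bool) (p : ℤ × ℤ → ℕ → ℝ) (B c : ℤ × ℤ → ℝ) : Prop where
  p0 : ∀ z, p z 0 = 1
  nn : ∀ z k, 0 ≤ p z k
  Bn : ∀ z, 0 ≤ B z
  cn : ∀ z, 0 ≤ c z ∧ c z ≤ 2
  oi : OutIn b p
  dkc : DK b p c 2
  dkB : DK b p B 1
  corD : CorD b p B
  corU : CorU b p B

/-- Row OutIn -/
def OutInStmt : Prop := ∀ μ : Measure Conf, Gibbs μ → ∀ b, OutIn b (pp μ b)

/-- Row DKc -/
def DKcStmt : Prop := ∀ μ : Measure Conf, Gibbs μ → Triv μ → ∀ b, DK b (pp μ b) (cc μ b) 2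

/-- Row DKB: legs in any direction b' -/
def DKBStmt : Prop :=
  ∀ μ : Measure Conf, Gibbs μ → Triv μ → ∀ b b', DK b (pp μ b) (al μ b') 1

/-- Row CorD -/
def CorDStmt : Prop := ∀ μ : Measure Conf, Gibbs μ → Triv μ → ∀ b, CorD b (pp μ b) (al μ (!b))

/-- Row CorU -/
def CorUStmt : Prop :=
  ∀ μ : Measure Conf, Gibbs μ → Triv μ → ∀ b, CorU b (pp μ b) (H45.al' μ (!b))

/-- the sum of w over the sites of a tower -/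
noncomputable def WW (b : Bool) (w : ℤ × ℤ → ℝ) (z : ℤ × ℤ) (k : ℕ) : ℝ :=
  ∑ i ∈ range k, w (pt b z i)

/-- the tower energy -/
noncomputable def TT (b : Bool) (p : ℤ × ℤ → ℕ → ℝ) (w e : ℤ × ℤ → ℝ)
    (J : Finset ((ℤ × ℤ) × ℕ)) : ℝ :=
  ∑ m ∈ J, p m.1 m.2 * (WW b e m.1 m.2 + 1) * WW b w m.1 m.2 ^ 2

/-- the data of the tower energy bound -/
structure Dat (b : Bool) (p : ℤ × ℤ → ℕ → ℝ) (B c w e : ℤ × ℤ → ℝ)
    (S : Finset (ℤ × ℤ)) (La F : ℝ) : Prop where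
  li : Line b p B c
  La0 : 0 ≤ La
  eb : ∀ z, 0 ≤ e z ∧ e z ≤ 1
  wb : ∀ z, 0 ≤ w z ∧ w z ≤ La * (B z + c z)
  ws : ∀ z, z ∉ S → w z = 0
  fm : ∀ J : Finset ((ℤ × ℤ) × ℕ), ∑ m ∈ J, p m.1 m.2 * WW b e m.1 m.2 ≤ F

/-- Row Off: off diagonal terms -/
def OffStmt : Prop :=
  ∃ C : ℝ, 0 ≤ C ∧ ∀ b p B c w e S La F, Dat b p B c w e S La F →
    ∀ J : Finset ((ℤ × ℤ) × ℕ), ∑ m ∈ J, p m.1 m.2 * (WW b e m.1 m.2 + 1) *
      ∑ i' ∈ range m.2, ∑ i ∈ range i', w (pt b m.1 i) * w (pt b m.1 i') ≤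
        C * (La ^ 2 * (F + S.card))

/-- Row Diag: diagonal terms -/
def DiagStmt : Prop :=
  ∃ C : ℝ, 0 ≤ C ∧ ∀ b p B c w e S La F, Dat b p B c w e S La F →
    ∀ J : Finset ((ℤ × ℤ) × ℕ), ∑ m ∈ J, p m.1 m.2 * (WW b e m.1 m.2 + 1) *
      ∑ i ∈ range m.2, w (pt b m.1 i) ^ 2 ≤
        C * (La ^ 2 * (F + S.card) + La * ∑ z ∈ S, w z)

/-- the multiplicity of the link at z: towers over z, towers from z and towers that end at z -/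
noncomputable def mul (b : Bool) (p : ℤ × ℤ → ℕ → ℝ) (e : ℤ × ℤ → ℝ) (z : ℤ × ℤ) (K : ℕ) : ℝ :=
  cov b p z K K + ∑ k ∈ range K, p z k * WW b e z k +
    ∑ i ∈ range K, p (pt b z (-(i : ℤ))) (i + 1) * WW b e (pt b z (-(i : ℤ))) (i + 1)

/-- Row Link -/
def LinkStmt : Prop :=
  ∃ C : ℝ, 0 ≤ C ∧ ∀ (b : Bool) (p : ℤ × ℤ → ℕ → ℝ) (A v e φ : ℤ × ℤ → ℝ) (S : Finset (ℤ × ℤ))
    (La F : ℝ), (∀ z, p z 0 = 1) → (∀ z k, 0 ≤ p z k) → OutIn b p → DK b p A 1 →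
    (∀ z, 0 ≤ A z ∧ A z ≤ A (z + dir b) + 1 ∧ A (z + dir b) ≤ A z + 1) → 0 ≤ La →
    (∀ z, 0 ≤ v z ∧ v z ≤ La * (A z + 2)) → (∀ z, 0 ≤ e z ∧ e z ≤ 1) → (∀ z, 0 ≤ φ z) →
    (∀ z, v z ≠ 0 → A z < 1 → 1 / 2 ≤ φ z) →
    (∀ K : ℕ, ∑ z ∈ S, φ z * cov b p z K K ≤ F) →
    (∀ J : Finset ((ℤ × ℤ) × ℕ), ∑ m ∈ J, p m.1 m.2 * WW b e m.1 m.2 ≤ F) →
      ∀ K, ∑ z ∈ S, v z ^ 2 * mul b p e z K ≤ C * (La ^ 2 * (F + S.card) + La * ∑ z ∈ S, v z)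

/-- Row Cov: two ways of summing over towers and sites -/
def CovStmt : Prop :=
  ∀ (b : Bool) (p : ℤ × ℤ → ℕ → ℝ) (e : ℤ × ℤ → ℝ) (S : Finset (ℤ × ℤ)), (∀ z k, 0 ≤ p z k) →
    (∀ z, 0 ≤ e z) → (∀ z, z ∉ S → e z = 0) → ∀ J : Finset ((ℤ × ℤ) × ℕ),
      ∃ K, ∑ m ∈ J, p m.1 m.2 * WW b e m.1 m.2 ≤ ∑ z ∈ S, e z * cov b p z K K

/-- the increments of a cut-off -/
noncomputable def ww (φ : ℤ × ℤ → ℝ) (b : Bool) (z : ℤ × ℤ) : ℝ := |φ (z + dir b) - φ z|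

/-- a cut-off at radius R -/
structure Cut (R : ℕ) (La T : ℝ) (lam : Bool → ℤ × ℤ → ℝ) (φ : ℤ × ℤ → ℝ) : Prop where
  bd : ∀ z, 0 ≤ φ z ∧ φ z ≤ 1
  supp : ∀ z, (R : ℤ) ≤ nrm z → φ z = 0
  lip : ∀ b z, ww φ b z ≤ La * lam b z
  tv : ∀ b (J : Finset (ℤ × ℤ)), ∑ z ∈ J, ww φ b z ≤ T

/-- Row Cut: the two cut-offs -/
def CutStmt : Prop :=
  ∀ (n Ψ : ℤ × ℤ → ℝ) (lam : Bool → ℤ × ℤ → ℝ) (a : ℝ) (R : ℕ), 0 < a →
    (∀ b z, 0 ≤ n (z + dir b) - n z ∧ n (z + dir b) - n z ≤ lam b z) →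
    (∀ b z, |Ψ (z + dir b) - Ψ z| ≤ lam b z) →
    (∀ z, Ψ z - Ψ (z + dir true) ≤ (n (z + dir true) - n z) / 2) →
    (∀ z, Ψ (z + dir false) - Ψ z ≤ (n (z + dir false) - n z) / 2) →
    (∀ z, nrm z = R → a < |n z| ∨ a < |Ψ z|) →
      ∃ φ φ', Cut R (4 / a) (100 * (R + 1)) lam φ ∧ Cut R (4 / a) (100 * (R + 1)) lam φ' ∧
        (∀ z, φ z ≠ 0 → φ' z = 1) ∧
        ∀ z, nrm z ≤ R → |n z| ≤ a / 4 → |Ψ z| ≤ a / 4 → φ z = 1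

/-- Row FM: the first moment of the east and north towers -/
def FMStmt : Prop :=
  ∃ C : ℝ, 0 ≤ C ∧ ∀ μ : Measure Conf, Gibbs μ → NoRay μ → ∀ (R : ℕ) (φ : ℤ × ℤ → ℝ) (T D : ℝ),
    1 ≤ R → (∀ z, 0 ≤ φ z ∧ φ z ≤ 1) → (∀ z, (R : ℤ) ≤ nrm z → φ z = 0) →
    (∀ b (J : Finset (ℤ × ℤ)), ∑ z ∈ J, ww φ b z ≤ T) →
    (∀ b z K, ww φ b z * cov b (pp μ b) z K K ≤ D) →
      ∀ b (J : Finset (ℤ × ℤ)) (K : ℕ), ∑ z ∈ J, φ z * cov b (pp μ b) z K K ≤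
        C * (R ^ 2 + R * T + D * R ^ 3)

/-- the weight of a tower: the minimum of the cut-off over its sites -/
noncomputable def ps (φ : ℤ × ℤ → ℝ) (m : Mv) : ℝ :=
  (range (m.2.2 + 1)).inf' nonempty_range_add_one fun i => φ (pt m.1 m.2.1 i)

/-- the indicator of the support -/
noncomputable def ee (φ : ℤ × ℤ → ℝ) (z : ℤ × ℤ) : ℝ := ind (φ z ≠ 0)

/-- the part of the pair energy that belongs to the relative position Q -/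
noncomputable def CS (μ : Measure Conf) (n : ℕ) (φ : ℤ × ℤ → ℝ) (Q : Mv → Mv → Prop) : ℝ :=
  ∑ m ∈ II n, ∑ m' ∈ II n, if Q m m' then
    (ps φ m - ps φ m') ^ 2 * μ.real {f | Av (-1) m f ∧ Av 1 m' f} else 0

/-- the eight positions of an up tower m' next to a down tower m -/
def Pos : ℕ → Mv → Mv → Prop
  | 0, m, m' => m'.1 = m.1 ∧ m'.2.1 = pt m.1 m.2.1 (m.2.2 + 1)
  | 1, m, m' => m'.1 = m.1 ∧ pt m.1 m'.2.1 (m'.2.2 + 1) = m.2.1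
  | 2, m, m' => m'.1 = m.1 ∧ ∃ i : ℕ, i ≤ m'.2.2 ∧ m'.2.2 ≤ i + m.2.2 ∧
      pt m.1 m'.2.1 i = m.2.1 + dir (!m.1)
  | 3, m, m' => m'.1 = m.1 ∧ ∃ i : ℕ, i ≤ m'.2.2 ∧ m'.2.2 ≤ i + m.2.2 ∧
      pt m.1 m'.2.1 i = m.2.1 - dir (!m.1)
  | 4, m, m' => m'.1 = (!m.1) ∧ m'.2.1 = m.2.1 + dir m'.1
  | 5, m, m' => m'.1 = (!m.1) ∧ pt m'.1 m'.2.1 (m'.2.2 + 1) = m.2.1
  | 6, m, m' => m'.1 = (!m.1) ∧ pt m'.1 m'.2.1 m'.2.2 = pt m.1 m.2.1 (-1)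
  | 7, m, m' => m'.1 = (!m.1) ∧ pt m'.1 m'.2.1 m'.2.2 = pt m.1 m.2.1 (m.2.2 + 1)
  | _, _, _ => False

/-- bounds for the tower energy and the link energy -/
structure Bds (μ : Measure Conf) (φ : ℤ × ℤ → ℝ) (T Lk : ℝ) : Prop where
  nn : ∀ z, 0 ≤ φ z
  tt : ∀ b J, TT b (pp μ b) (ww φ b) (ee φ) J ≤ T
  lk : ∀ b (S : Finset (ℤ × ℤ)) K, ∑ z ∈ S, ww φ (!b) z ^ 2 * mul b (pp μ b) (ee φ) z K ≤ Lk

/-- Rows Case 0, ..., Case 7 -/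
def CaseStmt (k : ℕ) : Prop :=
  ∀ μ : Measure Conf, Gibbs μ → ∀ φ T Lk, Bds μ φ T Lk → ∀ n, CS μ n φ (Pos k) ≤ 20 * (T + Lk)

end Pool.Agent.MP_151d89_pr.H34
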